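import Pool.Agent.V7H66.Blum.Defs

/-!
# A check of the definitions

The programs compute exactly the functions that Mathlib calls recursive in the oracle.
-/

set_option autoImplicit false

namespace Pool.Agent.V7H66.Blum

/-- The functions computed by programs with the oracle `o` are exactly the functions recursive in
`o` in the sense of Mathlib. -/
theorem exists_eval_iff (o f : ℕ →. ℕ) : (∃ c : OCode, c.eval o = f) ↔ Nat.RecursiveIn {o} f := by
  constructor
  · rintro ⟨c, rfl⟩
    induction c with
    | zero => exact Nat.RecursiveIn.zero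
    | succ => exact Nat.RecursiveIn.succ
    | left => exact Nat.RecursiveIn.left
    | right => exact Nat.RecursiveIn.right
    | oracle => exact Nat.RecursiveIn.oracle _ rfl
    | pair f h hf hh =>
      convert Nat.RecursiveIn.pair hf hh using 1
      funext n
      simp only [OCode.eval, Seq.seq]
      ext v
      simp [eq_comm]
    | comp f h hf hh => exact Nat.RecursiveIn.comp hf hh
    | prec f h hf hh => exact Nat.RecursiveIn.prec hf hh
    | rfind f hf => exact Nat.RecursiveIn.rfind hf
  · intro h
    induction h with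
    | zero => exact ⟨.zero, rfl⟩
    | succ => exact ⟨.succ, rfl⟩
    | left => exact ⟨.left, rfl⟩
    | right => exact ⟨.right, rfl⟩
    | oracle g hg => exact ⟨.oracle, by rw [Set.mem_singleton_iff.1 hg]; rfl⟩
    | pair _ _ h1 h2 =>
      obtain ⟨c, rfl⟩ := h1
      obtain ⟨d, rfl⟩ := h2
      refine ⟨.pair c d, ?_⟩
      funext n
      simp only [OCode.eval, Seq.seq]
      ext v
      simp [eq_comm]
    | comp _ _ h1 h2 =>
      obtain ⟨c, rfl⟩ := h1
      obtain ⟨d, rfl⟩ := h2
      exact ⟨.comp c d, rfl⟩
    | prec _ _ h1 h2 =>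
      obtain ⟨c, rfl⟩ := h1
      obtain ⟨d, rfl⟩ := h2
      exact ⟨.prec c d, rfl⟩
    | rfind _ h1 =>
      obtain ⟨c, rfl⟩ := h1
      exact ⟨.rfind c, rfl⟩

end Pool.Agent.V7H66.Blum
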