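import Pool.Agent.V7H66.Blum.Tt

/-!
Programs with an oracle for some functionals.
-/

set_option autoImplicit false

namespace Pool.Agent.V7H66.Blum

open Encodable Nat.Partrec
open Pool.Agent.Helper446.RE Pool.Agent.H587R2.NCE

/-- Functions computable without an oracle have programs which do not use the oracle. -/
theorem embed {f : ℕ →. ℕ} (hf : Nat.Partrec f) :
    ∃ c : OCode, ∀ (o : ℕ →. ℕ) (n : ℕ), c.eval o n = f n := by
  induction hf with
  | zero => exact ⟨.zero, fun o n => rfl⟩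
  | succ => exact ⟨.succ, fun o n => rfl⟩
  | left => exact ⟨.left, fun o n => rfl⟩
  | right => exact ⟨.right, fun o n => rfl⟩
  | @pair f g _ _ ihf ihg =>
    obtain ⟨c, hc⟩ := ihf
    obtain ⟨d, hd⟩ := ihg
    refine ⟨.pair c d, fun o n => ?_⟩
    show ((c.eval o n).bind fun u => (d.eval o n).bind fun v => Part.some (Nat.pair u v)) = _
    rw [hc, hd]
    ext v
    simp only [Part.mem_bind_iff, Part.mem_some_iff, Seq.seq, Part.map_eq_map, Part.mem_map_iff]
    constructor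
    · rintro ⟨a, ha, b, hb, rfl⟩
      exact ⟨_, ⟨a, ha, rfl⟩, b, hb, rfl⟩
    · rintro ⟨_, ⟨a, ha, rfl⟩, b, hb, rfl⟩
      exact ⟨a, ha, b, hb, rfl⟩
  | @comp f g _ _ ihf ihg =>
    obtain ⟨c, hc⟩ := ihf
    obtain ⟨d, hd⟩ := ihg
    refine ⟨.comp c d, fun o n => ?_⟩
    show (d.eval o n).bind (c.eval o) = (g n).bind f
    rw [hd]
    congr 1
    funext m
    exact hc o m
  | @prec f g _ _ ihf ihg =>
    obtain ⟨c, hc⟩ := ihf
    obtain ⟨d, hd⟩ := ihg
    refine ⟨.prec c d, fun o n => ?_⟩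
    show Nat.rec (motive := fun _ => Part ℕ) (c.eval o n.unpair.1)
      (fun y IH => IH.bind fun i => d.eval o (Nat.pair n.unpair.1 (Nat.pair y i))) n.unpair.2 =
      Nat.rec (motive := fun _ => Part ℕ) (f n.unpair.1)
      (fun y IH => IH.bind fun i => g (Nat.pair n.unpair.1 (Nat.pair y i))) n.unpair.2
    rw [hc]
    congr 1
    funext y IH
    congr 1
    funext i
    exact hd o _
  | @rfind f _ ihf =>
    obtain ⟨c, hc⟩ := ihf
    refine ⟨.rfind c, fun o n => ?_⟩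
    show (Nat.rfind fun m => (c.eval o (Nat.pair n m)).map fun m => decide (m = 0)) =
      Nat.rfind fun m => (f (Nat.pair n m)).map fun m => decide (m = 0)
    congr 1
    funext m
    rw [hc]

theorem embedC {f : ℕ → ℕ} (hf : Computable f) :
    ∃ c : OCode, ∀ (o : ℕ →. ℕ) (n : ℕ), c.eval o n = Part.some (f n) := by
  obtain ⟨c, hc⟩ := embed (Partrec.nat_iff.1 hf.partrec)
  exact ⟨c, fun o n => hc o n⟩

open Classical in
/-- `φ_i^X(x) + 1` if `Φ_i^X(x) ≤ y`, and `0` otherwise. -/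
noncomputable def Gv (M : RelBlum) (X : Set ℕ) (i x y : ℕ) : ℕ :=
  if h : ∃ y' ≤ y, y' ∈ M.Φ X i x then
    (M.φ X i x).get ((M.dom X i x).1 (Part.dom_iff_mem.2 ⟨_, h.choose_spec.2⟩)) + 1 else 0

theorem Gv_pos {M : RelBlum} {X : Set ℕ} {i x y y' v : ℕ} (h : y' ≤ y) (h2 : y' ∈ M.Φ X i x)
    (hv : v ∈ M.φ X i x) : Gv M X i x y = v + 1 := by
  unfold Gv
  rw [dif_pos ⟨y', h, h2⟩, Part.get_eq_of_mem hv]

theorem Gv_zero {M : RelBlum} {X : Set ℕ} {i x y : ℕ} (h : ∀ y' ≤ y, y' ∉ M.Φ X i x) :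
    Gv M X i x y = 0 := by
  unfold Gv
  rw [dif_neg]
  rintro ⟨y', h1, h2⟩
  exact h y' h1 h2

theorem Gv_cases (M : RelBlum) (X : Set ℕ) (i x y : ℕ) :
    (Gv M X i x y = 0 ∧ ∀ y' ≤ y, y' ∉ M.Φ X i x) ∨
      ∃ y' ≤ y, ∃ v, y' ∈ M.Φ X i x ∧ v ∈ M.φ X i x ∧ Gv M X i x y = v + 1 := by
  by_cases h : ∃ y' ≤ y, y' ∈ M.Φ X i x
  · right
    obtain ⟨y', h1, h2⟩ := h
    obtain ⟨v, hv⟩ := Part.dom_iff_mem.1 ((M.dom X i x).1 (Part.dom_iff_mem.2 ⟨_, h2⟩))
    exact ⟨y', h1, v, h2, hv, Gv_pos h1 h2 hv⟩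
  · left
    push Not at h
    exact ⟨Gv_zero h, h⟩

open Classical in
theorem exists_G (M : RelBlum) : ∃ c : OCode, ∀ (X : Set ℕ) (i x y : ℕ),
    run X c (Nat.pair i (Nat.pair x y)) = Part.some (Gv M X i x y) := by
  obtain ⟨cD, hD⟩ := M.dec
  obtain ⟨cU, hU⟩ := M.univ
  -- the number of `y' < n` with `Φ_i^X(x) = y'`
  obtain ⟨r1, hr1⟩ := embedC (f := fun p : ℕ =>
    Nat.pair p.unpair.1.unpair.1 (Nat.pair p.unpair.1.unpair.2 p.unpair.2.unpair.1))
    (by fun_prop)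
  obtain ⟨r2, hr2⟩ := embedC (f := fun p : ℕ => p.unpair.2.unpair.2) (by fun_prop)
  obtain ⟨ad, had⟩ := embedC (f := fun p : ℕ => p.unpair.1 + p.unpair.2) (by fun_prop)
  obtain ⟨r3, hr3⟩ := embedC (f := fun p : ℕ =>
    Nat.pair (Nat.pair p.unpair.1 p.unpair.2.unpair.1) (p.unpair.2.unpair.2 + 1)) (by fun_prop)
  obtain ⟨r4, hr4⟩ := embedC (f := fun p : ℕ => Nat.pair p.unpair.1 p.unpair.2.unpair.1)
    (by fun_prop)
  let cS : OCode := .prec .zero (.comp ad (.pair r2 (.comp cD r1)))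
  let cT : OCode := .prec .zero (.comp .succ (.comp cU .left))
  have hS : ∀ (X : Set ℕ) (i x n : ℕ), run X cS (Nat.pair (Nat.pair i x) n) =
      Part.some (if ∃ y' < n, y' ∈ M.Φ X i x then 1 else 0) := by
    intro X i x n
    show Nat.rec (motive := fun _ => Part ℕ) (Part.some 0) (fun y IH => IH.bind fun j =>
      (OCode.comp ad (.pair r2 (.comp cD r1))).eval _ (Nat.pair
        (Nat.pair (Nat.pair i x) n).unpair.1 (Nat.pair y j))) (Nat.pair (Nat.pair i x) n).unpair.2 =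
      _
    simp only [Nat.unpair_pair]
    induction n with
    | zero => simp
    | succ n ih =>
      simp only [ih, Part.bind_some]
      have h1 : (OCode.comp ad (.pair r2 (.comp cD r1))).eval (fun n => Part.some (chi X n))
          (Nat.pair (Nat.pair i x) (Nat.pair n (if ∃ y' < n, y' ∈ M.Φ X i x then 1 else 0))) =
          Part.some ((if ∃ y' < n, y' ∈ M.Φ X i x then 1 else 0) +
            (if n ∈ M.Φ X i x then 1 else 0)) := by
        have h2 := hD X i x n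
        unfold run at h2
        simp only [OCode.eval, hr1, hr2, Part.bind_some, Nat.unpair_pair, h2, had]
      rw [h1]
      congr 1
      by_cases h3 : ∃ y' < n, y' ∈ M.Φ X i x
      · have h4 : n ∉ M.Φ X i x := by
          intro h5
          obtain ⟨y', h6, h7⟩ := h3
          have := Part.mem_unique h5 h7
          omega
        rw [if_pos h3, if_neg h4, if_pos]
        obtain ⟨y', h6, h7⟩ := h3
        exact ⟨y', by omega, h7⟩
      · rw [if_neg h3]
        by_cases h4 : n ∈ M.Φ X i x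
        · rw [if_pos h4, if_pos ⟨n, by omega, h4⟩]
        · rw [if_neg h4, if_neg]
          rintro ⟨y', h6, h7⟩
          rcases Nat.lt_succ_iff_lt_or_eq.1 h6 with h6 | rfl
          exacts [h3 ⟨y', h6, h7⟩, h4 h7]
  have hT0 : ∀ (X : Set ℕ) (a : ℕ), run X cT (Nat.pair a 0) = Part.some 0 := by
    intro X a
    show Nat.rec (motive := fun _ => Part ℕ) (Part.some 0) (fun y IH => IH.bind fun j =>
      (OCode.comp .succ (.comp cU .left)).eval (fun n => Part.some (chi X n)) (Nat.pair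
        (Nat.pair a 0).unpair.1 (Nat.pair y j))) (Nat.pair a 0).unpair.2 = _
    rw [Nat.unpair_pair]
    rfl
  have hT1 : ∀ (X : Set ℕ) (a v : ℕ), run X cU a = Part.some v →
      run X cT (Nat.pair a 1) = Part.some (v + 1) := by
    intro X a v hv
    show Nat.rec (motive := fun _ => Part ℕ) (Part.some 0) (fun y IH => IH.bind fun j =>
      (OCode.comp .succ (.comp cU .left)).eval (fun n => Part.some (chi X n)) (Nat.pair
        (Nat.pair a 1).unpair.1 (Nat.pair y j))) (Nat.pair a 1).unpair.2 = _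
    rw [Nat.unpair_pair]
    unfold run at hv
    show (Part.some 0).bind _ = _
    simp only [Part.bind_some, OCode.eval, Nat.unpair_pair, hv]
  refine ⟨.comp cT (.pair r4 (.comp cS r3)), fun X i x y => ?_⟩
  have h1 : run X (.comp cT (.pair r4 (.comp cS r3))) (Nat.pair i (Nat.pair x y)) =
      run X cT (Nat.pair (Nat.pair i x) (if ∃ y' < y + 1, y' ∈ M.Φ X i x then 1 else 0)) := by
    have h2 := hS X i x (y + 1)
    unfold run at h2 ⊢
    simp only [OCode.eval, hr3, hr4, Part.bind_some, Nat.unpair_pair] at h2 ⊢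
    simp only [h2, Part.bind_some]
  rw [h1]
  have h3 : (∃ y' < y + 1, y' ∈ M.Φ X i x) ↔ ∃ y' ≤ y, y' ∈ M.Φ X i x := by
    simp only [Nat.lt_succ_iff]
  by_cases h : ∃ y' ≤ y, y' ∈ M.Φ X i x
  · rw [if_pos (h3.2 h)]
    obtain ⟨y', h4, h5⟩ := h
    obtain ⟨v, hv⟩ := Part.dom_iff_mem.1 ((M.dom X i x).1 (Part.dom_iff_mem.2 ⟨_, h5⟩))
    rw [Gv_pos h4 h5 hv]
    have h6 := hU X i x
    rw [Part.eq_some_iff.2 hv] at h6
    exact hT1 _ _ _ h6
  · rw [if_neg (fun h' => h (h3.1 h'))]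
    push Not at h
    rw [Gv_zero h]
    exact hT0 _ _

end Pool.Agent.V7H66.Blum
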