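import Pool.Agent.V7H66.Blum.Build

/-!
The construction: one step, and the sequence of the states.
-/

set_option autoImplicit false

namespace Pool.Agent.V7H66.Blum

open Encodable Nat.Partrec
open Pool.Agent.Helper446.RE Pool.Agent.H587R2.NCE

/-- triples -/
def z3 (i x y : ℕ) : ℕ := Nat.pair i (Nat.pair x y)

@[fun_prop] theorem c_z3 {α : Type*} [Primcodable α] {f g h : α → ℕ} (hf : Computable f)
    (hg : Computable g) (hh : Computable h) : Computable (fun a => z3 (f a) (g a) (h a)) := by
  unfold z3; fun_prop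

/-- Sum of the first `n` values. -/
def sumB (f : ℕ → ℕ) : ℕ → ℕ
  | 0 => 0
  | n + 1 => sumB f n + f n

theorem le_sumB {f : ℕ → ℕ} {n i : ℕ} (h : i < n) : f i ≤ sumB f n := by
  induction n with
  | zero => omega
  | succ n ih =>
    simp only [sumB]
    rcases Nat.lt_succ_iff_lt_or_eq.1 h with h | rfl
    · have := ih h; omega
    · omega

theorem c_sumB {α : Type*} [Primcodable α] {q : α → ℕ → ℕ}
    (hq : Computable fun p : α × ℕ => q p.1 p.2) {f : α → ℕ} (hf : Computable f) :
    Computable fun a => sumB (q a) (f a) := by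
  have h := Computable.nat_rec (f := f) (g := fun _ : α => 0)
    (h := fun (a : α) (y : ℕ × ℕ) => y.2 + q a y.1) hf (Computable.const 0)
    (Primrec.nat_add.to_comp.comp (Computable.snd.comp Computable.snd)
      (Computable.comp (f := fun p : α × ℕ => q p.1 p.2)
        (g := fun p : α × (ℕ × ℕ) => (p.1, p.2.1)) hq
        (Computable.fst.pair (Computable.fst.comp Computable.snd))))
  refine h.of_eq fun a => ?_
  generalize f a = n
  induction n with
  | zero => rfl
  | succ n ih => simp only [sumB]; rw [← ih]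

@[fun_prop] theorem c_beqN {α : Type*} [Primcodable α] {f g : α → ℕ} (hf : Computable f)
    (hg : Computable g) : Computable (fun a => f a == g a) := by
  have h : Computable fun a => decide (f a = g a) := cdecide (cp_eq hf hg)
  exact h.of_eq fun a => by by_cases h : f a = g a <;> simp [h]

@[fun_prop] theorem c_leb {α : Type*} [Primcodable α] {f g : α → ℕ} (hf : Computable f)
    (hg : Computable g) : Computable (fun a => decide (f a ≤ g a)) := cdecide (cp_le hf hg)

@[fun_prop] theorem c_ltb {α : Type*} [Primcodable α] {f g : α → ℕ} (hf : Computable f)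
    (hg : Computable g) : Computable (fun a => decide (f a < g a)) := cdecide (cp_lt hf hg)

@[fun_prop] theorem c_div2 {α : Type*} [Primcodable α] {f : α → ℕ} (hf : Computable f) :
    Computable (fun a => f a / 2) := Primrec.nat_div.to_comp.comp hf (Computable.const 2)

@[fun_prop] theorem c_mod2 {α : Type*} [Primcodable α] {f : α → ℕ} (hf : Computable f) :
    Computable (fun a => f a % 2) := Primrec.nat_mod.to_comp.comp hf (Computable.const 2)

/-- `q` and `q'` have the same digits below `m`. -/
def agree (q q' m : ℕ) : Bool := allB (fun n => bit q n == bit q' n) m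

theorem agree_iff {q q' m : ℕ} : agree q q' m = true ↔ ∀ n < m, bit q n = bit q' n := by
  unfold agree
  rw [allB_iff]
  simp

@[fun_prop] theorem c_agree {α : Type*} [Primcodable α] {f g h : α → ℕ} (hf : Computable f)
    (hg : Computable g) (hh : Computable h) :
    Computable (fun a => agree (f a) (g a) (h a)) := by
  unfold agree
  refine c_allB (q := fun a n => bit (f a) n == bit (g a) n) ?_ hh
  have h1 : Computable fun p : α × ℕ => f p.1 := hf.comp Computable.fst
  have h2 : Computable fun p : α × ℕ => g p.1 := hg.comp Computable.fst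
  fun_prop

section construction

variable (N : ℕ → ℕ) (V : ℕ → ℕ → ℕ) (A T : ℕ → ℕ)

/-- The requirement `r` is satisfied by the first `ℓ` digits of `q`, as seen at the level `F`. -/
def W (r F q ℓ : ℕ) : Bool :=
  bif r % 2 == 0 then
    exB (fun x => exB (fun y => decide (N (z3 (r / 2) x y) ≤ ℓ) &&
      (!(V q (z3 (r / 2) x y) == 0) && !(V q (z3 (r / 2) x y) == A x + 1))) F) F
  else
    exB (fun n => !(V 0 (z3 (r / 2) n (T n)) == 0) &&
      !(V 0 (z3 (r / 2) n (T n)) == bit q n + 1)) ℓ

/-- The length of the strings considered. -/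
def Lam (κ F : ℕ) : ℕ :=
  2 * κ + 1 + sumB (fun i => sumB (fun x => sumB (fun y => N (z3 i x y)) F) F) (κ + 1)

/-- The string `q'` may be adopted at `κ` for the sake of the requirement `r`. -/
def good (κ q F r q' : ℕ) : Bool := agree q q' (κ + r) && W N V A T r F q' (Lam N κ F)

/-- The requirement `r` needs attention. -/
def att (κ q F r : ℕ) : Bool :=
  !(W N V A T r F q (κ + r)) && exB (fun q' => good N V A T κ q F r q') (2 ^ Lam N κ F)

/-- The least requirement which needs attention and may act. -/
def act (κ q rl L F : ℕ) : ℕ :=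
  lst (fun r => (decide (L ≤ κ) || decide (r < rl)) && att N V A T κ q F r) (κ + 1)

/-- One step; the argument is `(κ, (q, rl, L), F)`. -/
def Step (p : ℕ × (ℕ × ℕ × ℕ) × ℕ) : ℕ × ℕ × ℕ :=
  bif decide (act N V A T p.1 p.2.1.1 p.2.1.2.1 p.2.1.2.2 p.2.2 < p.1 + 1) then
    (lst (fun q' => good N V A T p.1 p.2.1.1 p.2.2
        (act N V A T p.1 p.2.1.1 p.2.1.2.1 p.2.1.2.2 p.2.2) q') (2 ^ Lam N p.1 p.2.2),
      act N V A T p.1 p.2.1.1 p.2.1.2.1 p.2.1.2.2 p.2.2, Lam N p.1 p.2.2)
  else p.2.1

end construction

section computability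

variable {N : ℕ → ℕ} {V : ℕ → ℕ → ℕ} {A T : ℕ → ℕ}
variable {α : Type*} [Primcodable α]

theorem c_V (hV : Computable fun p : ℕ × ℕ => V p.1 p.2) {f g : α → ℕ} (hf : Computable f)
    (hg : Computable g) : Computable fun a => V (f a) (g a) :=
  Computable.comp (f := fun p : ℕ × ℕ => V p.1 p.2) (g := fun a => (f a, g a)) hV (hf.pair hg)

theorem c_W (hN : Computable N) (hV : Computable fun p : ℕ × ℕ => V p.1 p.2)
    (hA : Computable A) (hT : Computable T) {r F q l : α → ℕ} (hr : Computable r)
    (hF : Computable F) (hq : Computable q) (hl : Computable l) :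
    Computable fun a => W N V A T (r a) (F a) (q a) (l a) := by
  unfold W
  refine ccond (by fun_prop) ?_ ?_
  · refine c_exB (q := fun a x => exB (fun y => decide (N (z3 (r a / 2) x y) ≤ l a) &&
      (!(V (q a) (z3 (r a / 2) x y) == 0) && !(V (q a) (z3 (r a / 2) x y) == A x + 1))) (F a))
      ?_ hF
    have hF1 : Computable fun p : α × ℕ => F p.1 := hF.comp Computable.fst
    refine c_exB (q := fun (p : α × ℕ) y => decide (N (z3 (r p.1 / 2) p.2 y) ≤ l p.1) &&
      (!(V (q p.1) (z3 (r p.1 / 2) p.2 y) == 0) &&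
        !(V (q p.1) (z3 (r p.1 / 2) p.2 y) == A p.2 + 1))) ?_ hF1
    have hr1 : Computable fun s : (α × ℕ) × ℕ => r s.1.1 := hr.comp (by fun_prop)
    have hq1 : Computable fun s : (α × ℕ) × ℕ => q s.1.1 := hq.comp (by fun_prop)
    have hl1 : Computable fun s : (α × ℕ) × ℕ => l s.1.1 := hl.comp (by fun_prop)
    have hz : Computable fun s : (α × ℕ) × ℕ => z3 (r s.1.1 / 2) s.1.2 s.2 := by fun_prop
    have h1 : Computable fun s : (α × ℕ) × ℕ => N (z3 (r s.1.1 / 2) s.1.2 s.2) := hN.comp hz
    have h2 : Computable fun s : (α × ℕ) × ℕ => V (q s.1.1) (z3 (r s.1.1 / 2) s.1.2 s.2) :=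
      c_V hV hq1 hz
    have h3 : Computable fun s : (α × ℕ) × ℕ => A s.1.2 := hA.comp (by fun_prop)
    fun_prop
  · refine c_exB (q := fun a n => !(V 0 (z3 (r a / 2) n (T n)) == 0) &&
      !(V 0 (z3 (r a / 2) n (T n)) == bit (q a) n + 1)) ?_ hl
    have hr1 : Computable fun s : α × ℕ => r s.1 := hr.comp (by fun_prop)
    have hq1 : Computable fun s : α × ℕ => q s.1 := hq.comp (by fun_prop)
    have hT1 : Computable fun s : α × ℕ => T s.2 := hT.comp (by fun_prop)
    have hz : Computable fun s : α × ℕ => z3 (r s.1 / 2) s.2 (T s.2) := by fun_prop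
    have h2 : Computable fun s : α × ℕ => V 0 (z3 (r s.1 / 2) s.2 (T s.2)) :=
      c_V hV (Computable.const 0) hz
    fun_prop

theorem c_Lam (hN : Computable N) {κ F : α → ℕ} (hκ : Computable κ) (hF : Computable F) :
    Computable fun a => Lam N (κ a) (F a) := by
  unfold Lam
  have h1 : Computable fun a => sumB (fun i => sumB (fun x => sumB (fun y => N (z3 i x y)) (F a))
      (F a)) (κ a + 1) := by
    refine c_sumB (q := fun a i => sumB (fun x => sumB (fun y => N (z3 i x y)) (F a)) (F a)) ?_
      (by fun_prop)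
    have hF1 : Computable fun p : α × ℕ => F p.1 := hF.comp Computable.fst
    refine c_sumB (q := fun (p : α × ℕ) x => sumB (fun y => N (z3 p.2 x y)) (F p.1)) ?_ hF1
    have hF2 : Computable fun p : (α × ℕ) × ℕ => F p.1.1 := hF.comp (by fun_prop)
    refine c_sumB (q := fun (p : (α × ℕ) × ℕ) y => N (z3 p.1.2 p.2 y)) ?_ hF2
    exact hN.comp (by fun_prop)
  fun_prop

theorem c_good (hN : Computable N) (hV : Computable fun p : ℕ × ℕ => V p.1 p.2)
    (hA : Computable A) (hT : Computable T) {κ q F r q' : α → ℕ} (hκ : Computable κ)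
    (hq : Computable q) (hF : Computable F) (hr : Computable r) (hq' : Computable q') :
    Computable fun a => good N V A T (κ a) (q a) (F a) (r a) (q' a) := by
  unfold good
  have h1 := c_W hN hV hA hT hr hF hq' (c_Lam hN hκ hF)
  have h2 : Computable fun a => agree (q a) (q' a) (κ a + r a) := by fun_prop
  exact cand h2 h1

theorem c_att (hN : Computable N) (hV : Computable fun p : ℕ × ℕ => V p.1 p.2)
    (hA : Computable A) (hT : Computable T) {κ q F r : α → ℕ} (hκ : Computable κ)
    (hq : Computable q) (hF : Computable F) (hr : Computable r) :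
    Computable fun a => att N V A T (κ a) (q a) (F a) (r a) := by
  unfold att
  have h1 := c_W hN hV hA hT hr hF hq (show Computable fun a => κ a + r a by fun_prop)
  refine cand (cnot h1) ?_
  refine c_exB (q := fun a q' => good N V A T (κ a) (q a) (F a) (r a) q') ?_
    (c_pow (c_Lam hN hκ hF))
  exact c_good hN hV hA hT (hκ.comp Computable.fst) (hq.comp Computable.fst)
    (hF.comp Computable.fst) (hr.comp Computable.fst) Computable.snd

theorem c_act (hN : Computable N) (hV : Computable fun p : ℕ × ℕ => V p.1 p.2)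
    (hA : Computable A) (hT : Computable T) {κ q rl L F : α → ℕ} (hκ : Computable κ)
    (hq : Computable q) (hrl : Computable rl) (hL : Computable L) (hF : Computable F) :
    Computable fun a => act N V A T (κ a) (q a) (rl a) (L a) (F a) := by
  unfold act
  refine c_lst (q := fun a r => (decide (L a ≤ κ a) || decide (r < rl a)) &&
    att N V A T (κ a) (q a) (F a) r) ?_ (by fun_prop)
  have hκ1 : Computable fun p : α × ℕ => κ p.1 := hκ.comp Computable.fst
  have hL1 : Computable fun p : α × ℕ => L p.1 := hL.comp Computable.fst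
  have hrl1 : Computable fun p : α × ℕ => rl p.1 := hrl.comp Computable.fst
  refine cand (by fun_prop) ?_
  exact c_att hN hV hA hT hκ1 (hq.comp Computable.fst) (hF.comp Computable.fst) Computable.snd

theorem c_Step (hN : Computable N) (hV : Computable fun p : ℕ × ℕ => V p.1 p.2)
    (hA : Computable A) (hT : Computable T) : Computable (Step N V A T) := by
  unfold Step
  have hk : Computable fun p : ℕ × (ℕ × ℕ × ℕ) × ℕ => p.1 := by fun_prop
  have hq : Computable fun p : ℕ × (ℕ × ℕ × ℕ) × ℕ => p.2.1.1 := by fun_prop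
  have hrl : Computable fun p : ℕ × (ℕ × ℕ × ℕ) × ℕ => p.2.1.2.1 := by fun_prop
  have hL : Computable fun p : ℕ × (ℕ × ℕ × ℕ) × ℕ => p.2.1.2.2 := by fun_prop
  have hF : Computable fun p : ℕ × (ℕ × ℕ × ℕ) × ℕ => p.2.2 := by fun_prop
  have hact := c_act hN hV hA hT hk hq hrl hL hF
  have hLam := c_Lam hN hk hF
  refine ccond (by fun_prop) (cpair ?_ (cpair hact hLam)) (by fun_prop)
  refine c_lst (q := fun (p : ℕ × (ℕ × ℕ × ℕ) × ℕ) q' => good N V A T p.1 p.2.1.1 p.2.2
        (act N V A T p.1 p.2.1.1 p.2.1.2.1 p.2.1.2.2 p.2.2) q') ?_ (c_pow hLam)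
  exact c_good hN hV hA hT (hk.comp Computable.fst) (hq.comp Computable.fst)
    (hF.comp Computable.fst) (hact.comp Computable.fst) Computable.snd

end computability

end Pool.Agent.V7H66.Blum
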