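import Mathlib

/-!
# Relative Blum measures

Computation relative to an oracle, uniformly in the oracle; relative Blum measures; the notions
`Comp(A) > t` infinitely often and almost everywhere.
-/

set_option autoImplicit false

namespace Pool.Agent.V7H66.Blum

/-- Programs for computation with an oracle: the basic functions, the oracle, pairing,
composition, primitive recursion and unbounded search, as in Mathlib's `Nat.RecursiveIn`. -/
inductive OCode : Type
  | zero : OCode
  | succ : OCode
  | left : OCode
  | right : OCode
  | oracle : OCode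
  | pair : OCode → OCode → OCode
  | comp : OCode → OCode → OCode
  | prec : OCode → OCode → OCode
  | rfind : OCode → OCode

/-- The (possibly undefined) function computed by a program with the oracle `o`. -/
def OCode.eval (o : ℕ →. ℕ) : OCode → ℕ →. ℕ
  | .zero => fun _ => Part.some 0
  | .succ => fun n => Part.some (n + 1)
  | .left => fun n => Part.some n.unpair.1
  | .right => fun n => Part.some n.unpair.2
  | .oracle => o
  | .pair f h => fun n => (f.eval o n).bind fun u => (h.eval o n).bind fun v =>
      Part.some (Nat.pair u v)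
  | .comp f h => fun n => (h.eval o n).bind (f.eval o)
  | .prec f h => fun p => Nat.rec (motive := fun _ => Part ℕ) (f.eval o p.unpair.1)
      (fun y IH => IH.bind fun i => h.eval o (Nat.pair p.unpair.1 (Nat.pair y i))) p.unpair.2
  | .rfind f => fun a => Nat.rfind fun n => (f.eval o (Nat.pair a n)).map fun m => decide (m = 0)

open Classical in
/-- The characteristic function of a set, with values `0` and `1`. -/
noncomputable def chi (X : Set ℕ) (n : ℕ) : ℕ := if n ∈ X then 1 else 0

/-- The (possibly undefined) function computed by the program `c` with the oracle set `X`. -/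
noncomputable def run (X : Set ℕ) (c : OCode) : ℕ →. ℕ := c.eval fun n => Part.some (chi X n)

open Classical in
/-- A relative Blum measure. `φ X i` is the `i`-th (possibly undefined) function computable with
the oracle `X`, and `Φ X i` is its complexity. -/
structure RelBlum where
  /-- the enumeration `φ_i^X` -/
  φ : Set ℕ → ℕ → ℕ →. ℕ
  /-- the complexity `Φ_i^X` -/
  Φ : Set ℕ → ℕ → ℕ →. ℕ
  /-- the enumeration is computable relative to the oracle, uniformly in the oracle -/
  univ : ∃ c : OCode, ∀ (X : Set ℕ) (i x : ℕ), run X c (Nat.pair i x) = φ X i x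
  /-- the enumeration is acceptable, uniformly in the oracle: every uniformly computable family
  `F_i^X` is `φ_{s(i)}^X` for a recursive function `s` -/
  smn : ∀ c : OCode, ∃ s : ℕ → ℕ, Computable s ∧
    ∀ (X : Set ℕ) (i x : ℕ), φ X (s i) x = run X c (Nat.pair i x)
  /-- `Φ_i^X(x)` is defined if and only if `φ_i^X(x)` is defined -/
  dom : ∀ (X : Set ℕ) (i x : ℕ), (Φ X i x).Dom ↔ (φ X i x).Dom
  /-- `Φ_i^X(x) = y` is decidable relative to `X`, uniformly in `i`, `x`, `y` and `X` -/
  dec : ∃ c : OCode, ∀ (X : Set ℕ) (i x y : ℕ),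
    run X c (Nat.pair i (Nat.pair x y)) = Part.some (if y ∈ Φ X i x then 1 else 0)

/-- `i` is an index of the characteristic function of `A` with the oracle `X`. -/
def RelBlum.Index (M : RelBlum) (X A : Set ℕ) (i : ℕ) : Prop :=
  ∀ x, M.φ X i x = Part.some (chi A x)

/-- `Φ^X-Comp(A) >_io t`: for every `i` with `φ_i^X = c_A` there are infinitely many `x` with
`Φ_i^X(x) > t(x)`. -/
def RelBlum.CompIO (M : RelBlum) (X A : Set ℕ) (t : ℕ → ℕ) : Prop :=
  ∀ i, M.Index X A i → ∀ n, ∃ x, n ≤ x ∧ ∃ y ∈ M.Φ X i x, t x < y

/-- `Φ^X-Comp(A) >_ae t`: for every `i` with `φ_i^X = c_A`, `Φ_i^X(x) > t(x)` for all but finitely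
many `x`. -/
def RelBlum.CompAE (M : RelBlum) (X A : Set ℕ) (t : ℕ → ℕ) : Prop :=
  ∀ i, M.Index X A i → ∃ n, ∀ x, n ≤ x → ∃ y ∈ M.Φ X i x, t x < y

end Pool.Agent.V7H66.Blum
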