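import Pool.Agent.V7H66.Blum.Constr

/-!
The dynamics of the construction: finite injury.
-/

set_option autoImplicit false

namespace Pool.Agent.V7H66.Blum

open Encodable Nat.Partrec
open Pool.Agent.Helper446.RE Pool.Agent.H587R2.NCE

section

variable {N : ℕ → ℕ} {V : ℕ → ℕ → ℕ} {A T : ℕ → ℕ}

theorem W_even {i F q l : ℕ} : W N V A T (2 * i) F q l = true ↔ ∃ x < F, ∃ y < F,
    N (z3 i x y) ≤ l ∧ V q (z3 i x y) ≠ 0 ∧ V q (z3 i x y) ≠ A x + 1 := by
  unfold W
  have h1 : 2 * i % 2 = 0 := by omega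
  have h2 : 2 * i / 2 = i := by omega
  simp only [h1, h2, BEq.rfl, cond_true, exB_iff, Bool.and_eq_true, decide_eq_true_eq,
    Bool.not_eq_true', beq_eq_false_iff_ne]

theorem W_odd {e F q l : ℕ} : W N V A T (2 * e + 1) F q l = true ↔ ∃ n < l,
    V 0 (z3 e n (T n)) ≠ 0 ∧ V 0 (z3 e n (T n)) ≠ bit q n + 1 := by
  unfold W
  have h1 : ((2 * e + 1) % 2 == 0) = false := by
    have : (2 * e + 1) % 2 = 1 := by omega
    rw [this]; rfl
  have h2 : (2 * e + 1) / 2 = e := by omega
  simp only [h1, h2, cond_false, exB_iff, Bool.and_eq_true,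
    Bool.not_eq_true', beq_eq_false_iff_ne]

/-- `V a z` depends only on the first `N z` digits of `a`. -/
def Tab (N : ℕ → ℕ) (V : ℕ → ℕ → ℕ) : Prop :=
  ∀ z a a', (∀ n < N z, bit a n = bit a' n) → V a z = V a' z

theorem W_mono (hV : Tab N V) {r F F' q q' l l' : ℕ} (hF : F ≤ F') (hl : l ≤ l')
    (hq : ∀ n < l, bit q n = bit q' n) (h : W N V A T r F q l = true) :
    W N V A T r F' q' l' = true := by
  rcases Nat.even_or_odd' r with ⟨i, rfl | rfl⟩
  · rw [W_even] at h ⊢
    obtain ⟨x, hx, y, hy, h1, h2, h3⟩ := h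
    have h4 : V q (z3 i x y) = V q' (z3 i x y) := hV _ _ _ fun n hn => hq n (by omega)
    rw [h4] at h2 h3
    exact ⟨x, by omega, y, by omega, by omega, h2, h3⟩
  · rw [W_odd] at h ⊢
    obtain ⟨n, hn, h1, h2⟩ := h
    rw [hq n hn] at h2
    exact ⟨n, by omega, h1, h2⟩

theorem Step_no {κ q rl L F : ℕ} (h : ¬ act N V A T κ q rl L F < κ + 1) :
    Step N V A T (κ, (q, rl, L), F) = (q, rl, L) := by
  unfold Step
  simp only [h, decide_false, cond_false]

theorem Step_yes {κ q rl L F : ℕ} (h : act N V A T κ q rl L F < κ + 1) :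
    (L ≤ κ ∨ act N V A T κ q rl L F < rl) ∧
    W N V A T (act N V A T κ q rl L F) F q (κ + act N V A T κ q rl L F) = false ∧
    ∃ q', Step N V A T (κ, (q, rl, L), F) = (q', act N V A T κ q rl L F, Lam N κ F) ∧
      (∀ n < κ + act N V A T κ q rl L F, bit q n = bit q' n) ∧
      W N V A T (act N V A T κ q rl L F) F q' (Lam N κ F) = true := by
  have h1 := lst_of_lt (q := fun r => (decide (L ≤ κ) || decide (r < rl)) &&
    att N V A T κ q F r) h
  change ((decide (L ≤ κ) || decide (act N V A T κ q rl L F < rl)) &&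
    att N V A T κ q F (act N V A T κ q rl L F)) = true at h1
  rw [Bool.and_eq_true, Bool.or_eq_true, decide_eq_true_eq, decide_eq_true_eq] at h1
  obtain ⟨h2, h3⟩ := h1
  unfold att at h3
  rw [Bool.and_eq_true, Bool.not_eq_true', exB_iff] at h3
  obtain ⟨h4, q', hq', h5⟩ := h3
  have h6 := lst_lt_of (q := fun q' => good N V A T κ q F (act N V A T κ q rl L F) q') hq' h5
  refine ⟨h2, h4, lst (fun q' => good N V A T κ q F (act N V A T κ q rl L F) q')
    (2 ^ Lam N κ F), ?_, ?_⟩
  · unfold Step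
    simp only [h, decide_true, cond_true]
  · have h7 := h6.2.2
    unfold good at h7
    rw [Bool.and_eq_true, agree_iff] at h7
    exact h7

theorem act_le {κ q rl L F r : ℕ} (hr : r ≤ κ) (h1 : L ≤ κ ∨ r < rl)
    (h2 : W N V A T r F q (κ + r) = false)
    (h3 : ∃ q' < 2 ^ Lam N κ F, (∀ n < κ + r, bit q n = bit q' n) ∧
      W N V A T r F q' (Lam N κ F) = true) :
    act N V A T κ q rl L F ≤ r := by
  obtain ⟨q', hq', h4, h5⟩ := h3
  refine (lst_lt_of (i := r) (n := κ + 1) (by omega) ?_).1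
  rw [Bool.and_eq_true, Bool.or_eq_true, decide_eq_true_eq, decide_eq_true_eq]
  refine ⟨h1, ?_⟩
  unfold att
  rw [Bool.and_eq_true, Bool.not_eq_true', exB_iff]
  refine ⟨h2, q', hq', ?_⟩
  unfold good
  rw [Bool.and_eq_true, agree_iff]
  exact ⟨h4, h5⟩

variable {st : ℕ → ℕ × ℕ × ℕ} {f : ℕ → ℕ}

/-- the acting requirement -/
def ac (N : ℕ → ℕ) (V : ℕ → ℕ → ℕ) (A T : ℕ → ℕ) (st : ℕ → ℕ × ℕ × ℕ) (f : ℕ → ℕ) (κ : ℕ) : ℕ :=
  act N V A T κ (st κ).1 (st κ).2.1 (st κ).2.2 (f κ)

/-- from `K` on only requirements with numbers at least `r` act -/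
def Quiet (N : ℕ → ℕ) (V : ℕ → ℕ → ℕ) (A T : ℕ → ℕ) (st : ℕ → ℕ × ℕ × ℕ) (f : ℕ → ℕ)
    (r K : ℕ) : Prop := ∀ κ, K ≤ κ → ac N V A T st f κ < κ + 1 → r ≤ ac N V A T st f κ

theorem no_act (hst : ∀ κ, st (κ + 1) = Step N V A T (κ, st κ, f κ)) {κ : ℕ}
    (h : ¬ ac N V A T st f κ < κ + 1) : st (κ + 1) = st κ := by
  rw [hst]
  exact Step_no h

theorem yes_act (hst : ∀ κ, st (κ + 1) = Step N V A T (κ, st κ, f κ)) {κ : ℕ}
    (h : ac N V A T st f κ < κ + 1) :
    ((st κ).2.2 ≤ κ ∨ ac N V A T st f κ < (st κ).2.1) ∧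
    W N V A T (ac N V A T st f κ) (f κ) (st κ).1 (κ + ac N V A T st f κ) = false ∧
    (st (κ + 1)).2 = (ac N V A T st f κ, Lam N κ (f κ)) ∧
    (∀ n < κ + ac N V A T st f κ, bit (st κ).1 n = bit (st (κ + 1)).1 n) ∧
    W N V A T (ac N V A T st f κ) (f κ) (st (κ + 1)).1 (Lam N κ (f κ)) = true := by
  obtain ⟨h1, h2, q', h3, h4, h5⟩ := Step_yes h
  have h6 : st (κ + 1) = (q', ac N V A T st f κ, Lam N κ (f κ)) := by
    rw [hst]; exact h3
  rw [h6]
  exact ⟨h1, h2, rfl, h4, h5⟩

theorem bit_stable (hst : ∀ κ, st (κ + 1) = Step N V A T (κ, st κ, f κ)) {r K : ℕ}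
    (hQ : Quiet N V A T st f r K) {n : ℕ} (hn : n < K + r) :
    ∀ κ, K ≤ κ → bit (st κ).1 n = bit (st K).1 n := by
  intro κ hκ
  induction κ, hκ using Nat.le_induction with
  | base => rfl
  | succ κ hκ ih =>
    by_cases h : ac N V A T st f κ < κ + 1
    · have h1 := (yes_act hst h).2.2.2.1
      have h2 := hQ κ hκ h
      rw [← h1 n (by omega), ih]
    · rw [no_act hst h, ih]

theorem quiet_zero (K : ℕ) : Quiet N V A T st f 0 K := fun _ _ _ => Nat.zero_le _

theorem Quiet.mono {r K K' : ℕ} (h : Quiet N V A T st f r K) (hK : K ≤ K') :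
    Quiet N V A T st f r K' := fun κ hκ => h κ (hK.trans hκ)

/-- The final value of the digit `n`. -/
def fb (st : ℕ → ℕ × ℕ × ℕ) (n : ℕ) : ℕ := bit (st (n + 1)).1 n

theorem bit_final (hst : ∀ κ, st (κ + 1) = Step N V A T (κ, st κ, f κ)) {r κ : ℕ}
    (hQ : Quiet N V A T st f r κ) {n : ℕ} (hn : n < κ + r) : bit (st κ).1 n = fb st n := by
  unfold fb
  rw [← bit_stable hst hQ hn (max κ (n + 1)) (le_max_left _ _)]
  exact bit_stable hst (quiet_zero (n + 1)) (by omega) (max κ (n + 1)) (le_max_right _ _)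

/-- Every requirement acts only finitely often. -/
theorem exists_quiet (hV : Tab N V) (hst : ∀ κ, st (κ + 1) = Step N V A T (κ, st κ, f κ))
    (hf : StrictMono f) (r : ℕ) : ∃ K, Quiet N V A T st f r K := by
  induction r with
  | zero => exact ⟨0, quiet_zero 0⟩
  | succ r ih =>
    obtain ⟨K0, hK0⟩ := ih
    by_cases hex : ∃ κ1, K0 ≤ κ1 ∧ ac N V A T st f κ1 < κ1 + 1 ∧ ac N V A T st f κ1 = r
    · obtain ⟨κ1, hκ1, h1, h2⟩ := hex
      obtain ⟨-, -, h5, -, h7⟩ := yes_act hst h1
      rw [h2] at h5 h7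
      set Lm := Lam N κ1 (f κ1) with hLm
      -- the state does not change before `Lm`
      have hA : ∀ κ, κ1 + 1 ≤ κ → κ ≤ max (κ1 + 1) Lm → st κ = st (κ1 + 1) := by
        intro κ hκ
        induction κ, hκ using Nat.le_induction with
        | base => exact fun _ => rfl
        | succ κ hκ ih =>
          intro hle
          have ih' := ih (by omega)
          have hlt : κ < Lm := by
            rcases le_max_iff.1 hle with h | h <;> omega
          have hno : ¬ ac N V A T st f κ < κ + 1 := by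
            intro h
            have h8 := hK0 κ (by omega) h
            have h9 := (yes_act hst h).1
            rw [ih', h5] at h9
            simp only at h9
            omega
          rw [no_act hst hno, ih']
      set K2 := max (κ1 + 1) Lm with hK2
      have hK2a : κ1 + 1 ≤ K2 := le_max_left _ _
      have hK2b : Lm ≤ K2 := le_max_right _ _
      have hB : ∀ κ, K2 ≤ κ → W N V A T r (f κ) (st κ).1 (κ + r) = true := by
        intro κ hκ
        induction κ, hκ using Nat.le_induction with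
        | base =>
          rw [hA K2 hK2a le_rfl]
          exact W_mono hV (hf.monotone (by omega)) (by omega) (fun _ _ => rfl) h7
        | succ κ hκ ih =>
          by_cases h : ac N V A T st f κ < κ + 1
          · have h8 := hK0 κ (by omega) h
            obtain ⟨-, h10, -, h12, -⟩ := yes_act hst h
            have h9 : ac N V A T st f κ ≠ r := by
              intro h9
              rw [h9, ih] at h10
              exact Bool.noConfusion h10
            exact W_mono hV (hf.monotone (by omega)) (by omega)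
              (fun n hn => h12 n (by omega)) ih
          · rw [no_act hst h]
            exact W_mono hV (hf.monotone (by omega)) (by omega) (fun n hn => rfl) ih
      refine ⟨K2, fun κ hκ h => ?_⟩
      have h8 := hK0 κ (by omega) h
      have h10 := (yes_act hst h).2.1
      have h9 : ac N V A T st f κ ≠ r := by
        intro h9
        rw [h9, hB κ hκ] at h10
        exact Bool.noConfusion h10
      omega
    · refine ⟨K0, fun κ hκ h => ?_⟩
      have h8 := hK0 κ hκ h
      have h9 : ac N V A T st f κ ≠ r := fun h9 => hex ⟨κ, hκ, h, h9⟩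
      omega

/-- From some point on the requirement `r` may act. -/
theorem exists_allowed (hV : Tab N V) (hst : ∀ κ, st (κ + 1) = Step N V A T (κ, st κ, f κ))
    (hf : StrictMono f) (r : ℕ) : ∃ K, r ≤ K ∧ Quiet N V A T st f (r + 1) K ∧
      ∀ κ, K ≤ κ → (st κ).2.2 ≤ κ ∨ r < (st κ).2.1 := by
  obtain ⟨K, hK⟩ := exists_quiet hV hst hf (r + 1)
  have h : ∀ κ, K ≤ κ → (st κ).2.2 = (st K).2.2 ∨ r < (st κ).2.1 := by
    intro κ hκ
    induction κ, hκ using Nat.le_induction with
    | base => exact Or.inl rfl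
    | succ κ hκ ih =>
      by_cases h : ac N V A T st f κ < κ + 1
      · right
        rw [(yes_act hst h).2.2.1]
        have := hK κ hκ h
        show r < ac N V A T st f κ
        omega
      · rw [no_act hst h]; exact ih
  refine ⟨max (max K r) (st K).2.2, by omega, hK.mono (by omega), fun κ hκ => ?_⟩
  rcases h κ (by omega) with h | h
  · left; omega
  · right; exact h

theorem le_Lam {κ F i x y : ℕ} (hi : i ≤ κ) (hx : x < F) (hy : y < F) :
    N (z3 i x y) ≤ Lam N κ F := by
  unfold Lam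
  have h1 := le_sumB (f := fun y => N (z3 i x y)) hy
  have h2 := le_sumB (f := fun x => sumB (fun y => N (z3 i x y)) F) hx
  have h3 := le_sumB (f := fun i => sumB (fun x => sumB (fun y => N (z3 i x y)) F) F)
    (show i < κ + 1 by omega)
  omega

/-- The requirements with even numbers. -/
theorem even_req (hV : Tab N V) (hst : ∀ κ, st (κ + 1) = Step N V A T (κ, st κ, f κ))
    (hf : StrictMono f) (i : ℕ)
    (hi : ∀ x y a, (∀ n < N (z3 i x y), bit a n = fb st n) →
      V a (z3 i x y) = 0 ∨ V a (z3 i x y) = A x + 1) :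
    ∃ K, (∀ κ, K ≤ κ → ∀ n < κ + (2 * i + 1), bit (st κ).1 n = fb st n) ∧
      ∀ κ, K ≤ κ → ∀ x < f (κ + 1), ∀ y < f (κ + 1), ∀ q',
        (∀ n < κ + (2 * i + 1), bit (st κ).1 n = bit q' n) →
        V q' (z3 i x y) = 0 ∨ V q' (z3 i x y) = A x + 1 := by
  obtain ⟨K, hrK, hQ, hal⟩ := exists_allowed hV hst hf (2 * i)
  refine ⟨K, fun κ hκ n hn => bit_final hst (hQ.mono hκ) hn, fun κ hκ x hx y hy q' hq' => ?_⟩
  by_contra hcon
  push Not at hcon
  have h1 : act N V A T (κ + 1) (st (κ + 1)).1 (st (κ + 1)).2.1 (st (κ + 1)).2.2 (f (κ + 1)) ≤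
      2 * i := by
    refine act_le (by omega) (hal _ (by omega)) ?_ ?_
    · by_contra hW
      rw [Bool.not_eq_false, W_even] at hW
      obtain ⟨x', hx', y', hy', h2, h3, h4⟩ := hW
      rcases hi x' y' (st (κ + 1)).1 (fun n hn =>
        bit_final hst (hQ.mono (by omega)) (by omega)) with h5 | h5
      exacts [h3 h5, h4 h5]
    · refine ⟨q' % 2 ^ Lam N (κ + 1) (f (κ + 1)), Nat.mod_lt _ (by positivity), ?_, ?_⟩
      · intro n hn
        have h2 : κ + 1 + 2 * i ≤ Lam N (κ + 1) (f (κ + 1)) := by unfold Lam; omega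
        rw [bit_mod (by omega), ← hq' n (by omega)]
        exact bit_stable hst (hQ.mono hκ) (by omega) (κ + 1) (by omega)
      · rw [W_even]
        have h2 := le_Lam (N := N) (κ := κ + 1) (i := i) (by omega) hx hy
        refine ⟨x, hx, y, hy, h2, ?_⟩
        have h3 : V (q' % 2 ^ Lam N (κ + 1) (f (κ + 1))) (z3 i x y) = V q' (z3 i x y) :=
          hV _ _ _ fun n hn => bit_mod (by omega)
        rw [h3]
        exact hcon
  have h2 := hQ (κ + 1) (by omega) (by unfold ac; omega)
  unfold ac at h2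
  omega

/-- The requirements with odd numbers. -/
theorem odd_req (hV : Tab N V) (hst : ∀ κ, st (κ + 1) = Step N V A T (κ, st κ, f κ))
    (hf : StrictMono f) (e : ℕ)
    (he : ∀ n, V 0 (z3 e n (T n)) = 0 ∨ V 0 (z3 e n (T n)) = fb st n + 1) :
    ∃ K, ∀ n, K ≤ n → V 0 (z3 e n (T n)) = 0 := by
  obtain ⟨K, hrK, hQ, hal⟩ := exists_allowed hV hst hf (2 * e + 1)
  refine ⟨K + (2 * e + 1), fun n hn => ?_⟩
  by_contra hcon
  obtain ⟨κ, rfl⟩ : ∃ κ, n = κ + (2 * e + 1) := ⟨n - (2 * e + 1), by omega⟩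
  have hκ : K ≤ κ := by omega
  have hbit : ∀ m < κ + (2 * e + 1 + 1), bit (st κ).1 m = fb st m :=
    fun m hm => bit_final hst (hQ.mono hκ) hm
  have h1 : act N V A T κ (st κ).1 (st κ).2.1 (st κ).2.2 (f κ) ≤ 2 * e + 1 := by
    refine act_le (by omega) (hal _ hκ) ?_ ?_
    · by_contra hW
      rw [Bool.not_eq_false, W_odd] at hW
      obtain ⟨m, hm, h2, h3⟩ := hW
      rw [hbit m (by omega)] at h3
      rcases he m with h4 | h4
      exacts [h2 h4, h3 h4]
    · set n := κ + (2 * e + 1) with hndef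
      have hfb : fb st n = 0 ∨ fb st n = 1 := bit_eq_zero_or_one _ _
      have hLam : n + 1 ≤ Lam N κ (f κ) := by unfold Lam; omega
      have hlt : (st κ).1 % 2 ^ n < 2 ^ n := Nat.mod_lt _ (by positivity)
      have hpow : 2 ^ (n + 1) ≤ 2 ^ Lam N κ (f κ) := Nat.pow_le_pow_right (by norm_num) hLam
      rw [pow_succ] at hpow
      have hbits : ∀ c : ℕ, ∀ m < n, bit (st κ).1 m = bit ((st κ).1 % 2 ^ n + c * 2 ^ n) m := by
        intro c m hm
        rw [← bit_mod (a := (st κ).1 % 2 ^ n + c * 2 ^ n) hm, Nat.add_mul_mod_self_right,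
          Nat.mod_mod, bit_mod hm]
      have hbitn : ∀ c < 2, bit ((st κ).1 % 2 ^ n + c * 2 ^ n) n = c := by
        intro c hc
        unfold bit
        rw [Nat.add_mul_div_right _ _ (by positivity), Nat.div_eq_of_lt hlt, Nat.zero_add,
          Nat.mod_eq_of_lt hc]
      refine ⟨(st κ).1 % 2 ^ n + (1 - fb st n) * 2 ^ n, ?_, hbits _, ?_⟩
      · have h3 : (1 - fb st n) * 2 ^ n ≤ 2 ^ n := by
          rcases hfb with h | h <;> rw [h] <;> simp
        omega
      · rw [W_odd]
        refine ⟨n, by omega, hcon, ?_⟩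
        rw [hbitn _ (by omega)]
        rcases he n with h4 | h4
        · exact absurd h4 hcon
        · rw [h4]
          rcases hfb with h | h <;> rw [h] <;> simp
  have h2 := hQ κ hκ (by unfold ac; omega)
  unfold ac at h2
  omega

end

end Pool.Agent.V7H66.Blum
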