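import Pool.Agent.V7H66.Blum.Dyn

/-!
The levels: the clocked simulation of the construction.
-/

set_option autoImplicit false

namespace Pool.Agent.V7H66.Blum

open Encodable Nat.Partrec
open Pool.Agent.Helper446.RE Pool.Agent.H587R2.NCE

/-- One level of the simulation of the program with number `e`. -/
def nextL (e m : ℕ) (p : ℕ × (ℕ × ℕ × ℕ) × ℕ) : ℕ × (ℕ × ℕ × ℕ) × ℕ :=
  (Code.evaln (m + 1) (Denumerable.ofNat Code e) (encode p)).elim p fun v =>
    (p.1 + 1, (decode (α := ℕ × ℕ × ℕ) v).elim (0, 0, 0) (fun s => s), m + 1)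

/-- The state of the simulation at the level `m`. -/
def lev (e : ℕ) (m : ℕ) : ℕ × (ℕ × ℕ × ℕ) × ℕ :=
  Nat.rec (0, (0, 0, 0), 0) (fun m p => nextL e m p) m

theorem lev_zero (e : ℕ) : lev e 0 = (0, (0, 0, 0), 0) := rfl

theorem lev_succ (e m : ℕ) : lev e (m + 1) = nextL e m (lev e m) := rfl

@[fun_prop] theorem c_lev {α : Type*} [Primcodable α] {e m : α → ℕ} (he : Computable e)
    (hm : Computable m) : Computable fun a => lev (e a) (m a) := by
  have h1 : Computable fun a : α × (ℕ × (ℕ × (ℕ × ℕ × ℕ) × ℕ)) =>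
      Code.evaln (a.2.1 + 1) (Denumerable.ofNat Code (e a.1)) (encode a.2.2) := by
    have h2 : Computable fun a : α × (ℕ × (ℕ × (ℕ × ℕ × ℕ) × ℕ)) =>
        Denumerable.ofNat Code (e a.1) :=
      (Computable.ofNat Code).comp (he.comp Computable.fst)
    fun_prop
  have h3 : Computable fun a : (α × (ℕ × (ℕ × (ℕ × ℕ × ℕ) × ℕ))) × ℕ =>
      (decode (α := ℕ × ℕ × ℕ) a.2).elim (0, 0, 0) (fun s => s) := by
    refine c_elim (f := fun a : (α × (ℕ × (ℕ × (ℕ × ℕ × ℕ) × ℕ))) × ℕ =>
      decode (α := ℕ × ℕ × ℕ) a.2) (g := fun _ s => s) (d := fun _ => (0, 0, 0))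
      (by fun_prop) (by fun_prop) (by fun_prop)
  have h4 : Computable fun a : α × (ℕ × (ℕ × (ℕ × ℕ × ℕ) × ℕ)) => nextL (e a.1) a.2.1 a.2.2 := by
    unfold nextL
    refine c_elim (f := fun a : α × (ℕ × (ℕ × (ℕ × ℕ × ℕ) × ℕ)) =>
      Code.evaln (a.2.1 + 1) (Denumerable.ofNat Code (e a.1)) (encode a.2.2))
      (g := fun a v => (a.2.2.1 + 1, (decode (α := ℕ × ℕ × ℕ) v).elim (0, 0, 0) (fun s => s),
        a.2.1 + 1)) (d := fun a => a.2.2) h1 ?_ (by fun_prop)
    fun_prop
  exact Computable.nat_rec (f := m) (g := fun _ : α => (0, (0, 0, 0), 0))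
    (h := fun a y => nextL (e a) y.1 y.2) hm (Computable.const _) h4

section

variable {S : ℕ × (ℕ × ℕ × ℕ) × ℕ → ℕ × ℕ × ℕ} {e : ℕ}

theorem lev_step (he : ∀ p, (Denumerable.ofNat Code e).eval (encode p) = Part.some (encode (S p)))
    (m : ℕ) : lev e (m + 1) = lev e m ∨
      lev e (m + 1) = ((lev e m).1 + 1, S (lev e m), m + 1) := by
  rw [lev_succ, nextL]
  cases h : Code.evaln (m + 1) (Denumerable.ofNat Code e) (encode (lev e m)) with
  | none => left; rfl
  | some v =>
    right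
    have h1 : v ∈ (Denumerable.ofNat Code e).eval (encode (lev e m)) :=
      Code.evaln_complete.2 ⟨_, h⟩
    rw [he, Part.mem_some_iff] at h1
    subst h1
    show (_, (decode (α := ℕ × ℕ × ℕ) (encode (S (lev e m)))).elim (0, 0, 0) (fun s => s), _) = _
    rw [encodek]
    rfl

theorem lev_progress
    (he : ∀ p, (Denumerable.ofNat Code e).eval (encode p) = Part.some (encode (S p)))
    (m : ℕ) : ∃ m', m ≤ m' ∧ (lev e m').1 = (lev e m).1 ∧
      (lev e (m' + 1)).1 = (lev e m).1 + 1 := by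
  by_contra hcon
  push Not at hcon
  have h1 : ∀ m', m ≤ m' → lev e m' = lev e m := by
    intro m' hm'
    induction m', hm' using Nat.le_induction with
    | base => rfl
    | succ m' hm' ih =>
      rcases lev_step he m' with h | h
      · rw [h, ih]
      · exfalso
        refine hcon m' hm' (by rw [ih]) ?_
        rw [h, ih]
  have h2 : encode (S (lev e m)) ∈ (Denumerable.ofNat Code e).eval (encode (lev e m)) := by
    rw [he]; exact Part.mem_some _
  obtain ⟨k, hk⟩ := Code.evaln_complete.1 h2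
  have h3 := Code.evaln_mono (show k ≤ max m k + 1 by omega) hk
  have h4 : lev e (max m k + 1) = lev e m := h1 _ (by omega)
  rw [lev_succ, nextL, h1 (max m k) (by omega), Option.mem_def.1 h3] at h4
  have h5 := congrArg Prod.fst h4
  simp at h5

/-- The sequence of the states, and the levels at which the blocks start. -/
theorem exists_seq
    (he : ∀ p, (Denumerable.ofNat Code e).eval (encode p) = Part.some (encode (S p))) :
    ∃ (st : ℕ → ℕ × ℕ × ℕ) (f : ℕ → ℕ), Computable st ∧ Computable f ∧ StrictMono f ∧ f 0 = 0 ∧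
      (∀ κ, st (κ + 1) = S (κ, st κ, f κ)) ∧
      (∀ κ m, f κ ≤ m → m < f (κ + 1) → lev e m = (κ, st κ, f κ)) := by
  have hmono : Monotone fun m => (lev e m).1 := by
    refine monotone_nat_of_le_succ fun m => ?_
    rcases lev_step he m with h | h <;> rw [h] <;> simp
  have hex : ∀ κ, ∃ m, (lev e m).1 = κ := by
    intro κ
    induction κ with
    | zero => exact ⟨0, rfl⟩
    | succ κ ih =>
      obtain ⟨m, hm⟩ := ih
      obtain ⟨m', -, -, h⟩ := lev_progress he m
      exact ⟨m' + 1, by rw [h, hm]⟩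
  obtain ⟨f, hfc, hf⟩ := exists_find (α := ℕ) (q := fun κ m => (lev e m).1 == κ)
    (by fun_prop) (fun κ => by
      obtain ⟨m, hm⟩ := hex κ
      exact ⟨m, by simp [hm]⟩)
  have hf1 : ∀ κ, (lev e (f κ)).1 = κ := fun κ => by simpa using (hf κ).1
  have hf2 : ∀ κ m, m < f κ → (lev e m).1 ≠ κ := fun κ m hm => by simpa using (hf κ).2 m hm
  have hf0 : f 0 = 0 := by
    by_contra h
    exact hf2 0 0 (by omega) rfl
  have hlt : ∀ κ, f κ < f (κ + 1) := by
    intro κ
    by_contra h
    have h1 := hmono (show f (κ + 1) ≤ f κ by omega)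
    simp only [hf1] at h1
    omega
  have hblk : ∀ κ m, f κ ≤ m → m < f (κ + 1) → lev e m = lev e (f κ) := by
    intro κ m hm
    induction m, hm using Nat.le_induction with
    | base => exact fun _ => rfl
    | succ m hm ih =>
      intro hm2
      have ih' := ih (by omega)
      rcases lev_step he m with h | h
      · rw [h, ih']
      · exfalso
        refine hf2 (κ + 1) (m + 1) hm2 ?_
        rw [h, ih']
        simp [hf1]
  have hnext : ∀ κ, lev e (f (κ + 1)) = (κ + 1, S (lev e (f κ)), f (κ + 1)) := by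
    intro κ
    obtain ⟨m, hm⟩ : ∃ m, f (κ + 1) = m + 1 := ⟨f (κ + 1) - 1, by have := hlt κ; omega⟩
    have h1 := hblk κ m (by have := hlt κ; omega) (by omega)
    rw [hm]
    rcases lev_step he m with h | h
    · exfalso
      have h2 := hf1 (κ + 1)
      rw [hm, h, h1, hf1] at h2
      omega
    · rw [h, h1, hf1]
  have h22 : ∀ κ, (lev e (f κ)).2.2 = f κ := by
    intro κ
    cases κ with
    | zero => rw [hf0]; rfl
    | succ κ => rw [hnext]
  have hlev : ∀ κ, lev e (f κ) = (κ, (lev e (f κ)).2.1, f κ) := by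
    intro κ
    have h1 := hf1 κ
    have h2 := h22 κ
    calc lev e (f κ) = ((lev e (f κ)).1, (lev e (f κ)).2.1, (lev e (f κ)).2.2) := rfl
      _ = _ := by rw [h1, h2]
  refine ⟨fun κ => (lev e (f κ)).2.1, f, by fun_prop, hfc, strictMono_nat_of_lt_succ hlt, hf0,
    fun κ => ?_, fun κ m h1 h2 => ?_⟩
  · show (lev e (f (κ + 1))).2.1 = S (κ, (lev e (f κ)).2.1, f κ)
    rw [hnext, ← hlev]
  · show lev e m = (κ, (lev e (f κ)).2.1, f κ)
    rw [hblk κ m h1 h2, ← hlev]

end

end Pool.Agent.V7H66.Blum
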