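import Pool.Agent.V7H66.Blum.Lev

/-!
The main theorem.
-/

set_option autoImplicit false

namespace Pool.Agent.V7H66.Blum

open Encodable Nat.Partrec
open Pool.Agent.Helper446.RE Pool.Agent.H587R2.NCE

section

variable (N : ℕ → ℕ) (V : ℕ → ℕ → ℕ)

/-- The least string which is compatible with the known digits and for which the value is not
zero. -/
def cnd (p : ℕ × (ℕ × ℕ × ℕ) × ℕ) (i z : ℕ) : ℕ :=
  lst (fun q' => agree p.2.1.1 q' (p.1 + (2 * i + 1)) && !(V q' z == 0))
    (2 ^ max (N z) (p.1 + (2 * i + 1)))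

/-- The value found, or `0`. -/
def Pv (p : ℕ × (ℕ × ℕ × ℕ) × ℕ) (i z : ℕ) : ℕ :=
  bif decide (cnd N V p i z < 2 ^ max (N z) (p.1 + (2 * i + 1))) then V (cnd N V p i z) z else 0

/-- Stage `y` of the computation of the program `k` on the input `x`: `0` if it does not yet halt,
and `v + 1` if it halts with the value `v`. -/
def Sv (k x y : ℕ) : ℕ :=
  ((Denumerable.ofNat (ℕ × ℕ × List ℕ) k).2.2[x]?).elim
    (Pv N V (lev (Denumerable.ofNat (ℕ × ℕ × List ℕ) k).1 (max x y))
      (Denumerable.ofNat (ℕ × ℕ × List ℕ) k).2.1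
      (z3 (Denumerable.ofNat (ℕ × ℕ × List ℕ) k).2.1 x y)) (fun v => v + 1)

end

section

variable {N : ℕ → ℕ} {V : ℕ → ℕ → ℕ}

theorem Pv_cases (p : ℕ × (ℕ × ℕ × ℕ) × ℕ) (i z : ℕ) : Pv N V p i z = 0 ∨
    ∃ q', (∀ n < p.1 + (2 * i + 1), bit p.2.1.1 n = bit q' n) ∧ Pv N V p i z = V q' z := by
  unfold Pv
  by_cases h : cnd N V p i z < 2 ^ max (N z) (p.1 + (2 * i + 1))
  · right
    have h1 := lst_of_lt (q := fun q' => agree p.2.1.1 q' (p.1 + (2 * i + 1)) && !(V q' z == 0)) h
    simp only [Bool.and_eq_true, agree_iff] at h1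
    refine ⟨cnd N V p i z, h1.1, ?_⟩
    simp [h]
  · left
    simp [h]

theorem Pv_ne {p : ℕ × (ℕ × ℕ × ℕ) × ℕ} {i z : ℕ}
    (h : ∃ q' < 2 ^ max (N z) (p.1 + (2 * i + 1)),
      (∀ n < p.1 + (2 * i + 1), bit p.2.1.1 n = bit q' n) ∧ V q' z ≠ 0) : Pv N V p i z ≠ 0 := by
  obtain ⟨q', hq', h1, h2⟩ := h
  have h3 := lst_lt_of (q := fun q' => agree p.2.1.1 q' (p.1 + (2 * i + 1)) && !(V q' z == 0))
    hq' (by
      rw [Bool.and_eq_true, agree_iff]
      exact ⟨h1, by simpa using h2⟩)
  obtain ⟨-, h4, h5⟩ := h3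
  change cnd N V p i z < _ at h4
  change (agree p.2.1.1 (cnd N V p i z) (p.1 + (2 * i + 1)) && !(V (cnd N V p i z) z == 0)) = true
    at h5
  unfold Pv
  simp only [h4, decide_true, cond_true]
  simp only [Bool.and_eq_true] at h5
  simpa using h5.2

variable {α : Type*} [Primcodable α]

theorem c_cnd (hN : Computable N) (hV : Computable fun p : ℕ × ℕ => V p.1 p.2)
    {p : α → ℕ × (ℕ × ℕ × ℕ) × ℕ} {i z : α → ℕ} (hp : Computable p) (hi : Computable i)
    (hz : Computable z) : Computable fun a => cnd N V (p a) (i a) (z a) := by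
  unfold cnd
  refine c_lst (q := fun a q' => agree (p a).2.1.1 q' ((p a).1 + (2 * i a + 1)) &&
    !(V q' (z a) == 0)) ?_ ?_
  · have hp1 : Computable fun s : α × ℕ => p s.1 := hp.comp Computable.fst
    have hi1 : Computable fun s : α × ℕ => i s.1 := hi.comp Computable.fst
    have h1 : Computable fun s : α × ℕ => V s.2 (z s.1) :=
      c_V hV Computable.snd (hz.comp Computable.fst)
    fun_prop
  · have h1 : Computable fun a => N (z a) := hN.comp hz
    fun_prop

theorem c_Pv (hN : Computable N) (hV : Computable fun p : ℕ × ℕ => V p.1 p.2)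
    {p : α → ℕ × (ℕ × ℕ × ℕ) × ℕ} {i z : α → ℕ} (hp : Computable p) (hi : Computable i)
    (hz : Computable z) : Computable fun a => Pv N V (p a) (i a) (z a) := by
  unfold Pv
  have h1 := c_cnd hN hV hp hi hz
  have h2 : Computable fun a => N (z a) := hN.comp hz
  refine ccond (by fun_prop) (c_V hV h1 hz) (by fun_prop)

theorem c_Sv (hN : Computable N) (hV : Computable fun p : ℕ × ℕ => V p.1 p.2)
    {k x y : α → ℕ} (hk : Computable k) (hx : Computable x) (hy : Computable y) :
    Computable fun a => Sv N V (k a) (x a) (y a) := by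
  unfold Sv
  have h1 : Computable fun a => Denumerable.ofNat (ℕ × ℕ × List ℕ) (k a) :=
    (Computable.ofNat _).comp hk
  refine c_elim (f := fun a => (Denumerable.ofNat (ℕ × ℕ × List ℕ) (k a)).2.2[x a]?)
    (g := fun _ v => v + 1) (by fun_prop) ?_ (by fun_prop)
  refine c_Pv hN hV ?_ ?_ ?_ <;> fun_prop

end

theorem chi_eq_bit (a n : ℕ) : chi {n | bit a n = 1} n = bit a n := by
  unfold chi
  rcases bit_eq_zero_or_one a n with h | h <;> simp [h]

theorem c_chi {A : Set ℕ} (hA : ComputablePred fun x => x ∈ A) : Computable (chi A) := by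
  classical
  exact (cite hA (Computable.const 1) (Computable.const 0)).of_eq fun n => by
    unfold chi; congr

/-- The main theorem. -/
theorem main (M : RelBlum) : ∃ g : ℕ → ℕ → ℕ, Computable₂ g ∧
    ∀ A : Set ℕ, ComputablePred (fun x => x ∈ A) → ∀ t' : ℕ → ℕ, Computable t' →
    ∃ B : Set ℕ, ComputablePred (fun x => x ∈ B) ∧ M.CompAE ∅ B t' ∧
      ∀ t : ℕ → ℕ, Computable t → M.CompIO ∅ A (fun x => g x (t x)) → M.CompIO B A t := by
  classical
  obtain ⟨cG, hG⟩ := exists_G M
  have htot : ∀ (X : Set ℕ) z, (run X cG z).Dom := by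
    intro X z
    have h1 := hG X z.unpair.1 z.unpair.2.unpair.1 z.unpair.2.unpair.2
    simp only [Nat.pair_unpair] at h1
    rw [h1]
    trivial
  obtain ⟨N, V, hN, hV, hNV⟩ := tt cG htot
  have hNV' : ∀ (X : Set ℕ) (a i x y : ℕ), (∀ n < N (z3 i x y), chi X n = bit a n) →
      V a (z3 i x y) = Gv M X i x y := by
    intro X a i x y h
    have h1 := hNV _ X a h
    unfold z3 at h1 ⊢
    rw [hG] at h1
    exact (Part.some_injective h1).symm
  have hTab : Tab N V := by
    intro z a a' h
    have h1 := hNV z {n | bit a n = 1} a fun n _ => chi_eq_bit a n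
    have h2 := hNV z {n | bit a n = 1} a' fun n hn => by rw [chi_eq_bit, h n hn]
    rw [h1] at h2
    exact Part.some_injective h2
  have hV0 : ∀ i x y, V 0 (z3 i x y) = Gv M ∅ i x y := by
    intro i x y
    refine hNV' _ _ _ _ _ fun n _ => ?_
    rw [bit_zero]
    simp [chi]
  -- the predicate `Φ_i(x) = y` without oracle
  obtain ⟨cD, hD⟩ := M.dec
  have htotD : ∀ (X : Set ℕ) z, (run X cD z).Dom := by
    intro X z
    have h1 := hD X z.unpair.1 z.unpair.2.unpair.1 z.unpair.2.unpair.2
    simp only [Nat.pair_unpair] at h1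
    rw [h1]
    trivial
  obtain ⟨ND, VD, -, hVD, hNVD⟩ := tt cD htotD
  have hVD0 : ∀ i x y, VD 0 (z3 i x y) = 1 ↔ y ∈ M.Φ ∅ i x := by
    intro i x y
    have h1 := hNVD (z3 i x y) ∅ 0 fun n _ => by rw [bit_zero]; simp [chi]
    unfold z3 at h1 ⊢
    rw [hD] at h1
    have h2 := Part.some_injective h1
    rw [← h2]
    by_cases h : y ∈ M.Φ ∅ i x <;> simp [h]
  -- the programs `k`
  let hh : ℕ →. ℕ := fun p => (Nat.rfind fun y =>
    (Part.some (!(Sv N V p.unpair.1 p.unpair.2 y == 0)) : Part Bool)).map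
      fun y => Sv N V p.unpair.1 p.unpair.2 y - 1
  have hhp : Nat.Partrec hh := by
    rw [← Partrec.nat_iff]
    have h1 : Computable fun s : ℕ × ℕ => Sv N V s.1.unpair.1 s.1.unpair.2 s.2 :=
      c_Sv hN hV (by fun_prop) (by fun_prop) (by fun_prop)
    have h2 : Computable fun s : ℕ × ℕ => !(Sv N V s.1.unpair.1 s.1.unpair.2 s.2 == 0) := by
      fun_prop
    have h3 : Computable fun s : ℕ × ℕ => Sv N V s.1.unpair.1 s.1.unpair.2 s.2 - 1 := by
      fun_prop
    exact Partrec.map (f := fun p : ℕ => Nat.rfind fun y =>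
      (Part.some (!(Sv N V p.unpair.1 p.unpair.2 y == 0)) : Part Bool))
      (g := fun (p y : ℕ) => Sv N V p.unpair.1 p.unpair.2 y - 1)
      (Partrec.rfind (p := fun (p y : ℕ) =>
        (Part.some (!(Sv N V p.unpair.1 p.unpair.2 y == 0)) : Part Bool)) h2.partrec) h3
  have hhmem : ∀ k x v, v ∈ hh (Nat.pair k x) ↔ ∃ y, Sv N V k x y ≠ 0 ∧
      (∀ y' < y, Sv N V k x y' = 0) ∧ v = Sv N V k x y - 1 := by
    intro k x v
    simp only [hh, Nat.unpair_pair, Part.mem_map_iff, Nat.mem_rfind, Part.mem_some_iff]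
    constructor
    · rintro ⟨y, ⟨h1, h2⟩, h3⟩
      refine ⟨y, by simpa using h1, fun y' hy' => by simpa using h2 hy', h3.symm⟩
    · rintro ⟨y, h1, h2, h3⟩
      refine ⟨y, ⟨by simpa using h1, fun {y'} hy' => by simpa using h2 y' hy'⟩, h3.symm⟩
  obtain ⟨ch, hch⟩ := embed hhp
  obtain ⟨s, hs, hsφ⟩ := M.smn ch
  have hsφ' : ∀ (X : Set ℕ) k x, M.φ X (s k) x = hh (Nat.pair k x) := by
    intro X k x
    rw [hsφ]
    exact hch _ _
  have hdef : ∀ k x y, Sv N V k x y ≠ 0 → (hh (Nat.pair k x)).Dom := by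
    intro k x y h
    have hex : ∃ y, Sv N V k x y ≠ 0 := ⟨y, h⟩
    rw [Part.dom_iff_mem]
    refine ⟨_, (hhmem k x _).2 ⟨Nat.find hex, Nat.find_spec hex, fun y' hy' => ?_, rfl⟩⟩
    have := Nat.find_min hex hy'
    push Not at this
    exact this
  -- the bound
  obtain ⟨w, hw, hw1⟩ := exists_find (α := (ℕ × ℕ) × ℕ) (q := fun a w =>
    !(exB (fun y' => !(Sv N V a.1.1 a.1.2 y' == 0)) (a.2 + 1)) ||
      (VD 0 (z3 (s a.1.1) a.1.2 w) == 1)) (by
    have h1 : Computable fun r : (((ℕ × ℕ) × ℕ) × ℕ) × ℕ => Sv N V r.1.1.1.1 r.1.1.1.2 r.2 :=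
      c_Sv hN hV (by fun_prop) (by fun_prop) (by fun_prop)
    have h2 : Computable fun r : ((ℕ × ℕ) × ℕ) × ℕ =>
        exB (fun y' => !(Sv N V r.1.1.1 r.1.1.2 y' == 0)) (r.1.2 + 1) :=
      c_exB (q := fun (r : ((ℕ × ℕ) × ℕ) × ℕ) y' => !(Sv N V r.1.1.1 r.1.1.2 y' == 0))
        (by fun_prop) (by fun_prop)
    have h3 : Computable fun r : ((ℕ × ℕ) × ℕ) × ℕ => s r.1.1.1 := hs.comp (by fun_prop)
    have h4 : Computable fun r : ((ℕ × ℕ) × ℕ) × ℕ => VD 0 (z3 (s r.1.1.1) r.1.1.2 r.2) :=
      c_V hVD (Computable.const 0) (by fun_prop)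
    fun_prop) (by
    rintro ⟨⟨k, x⟩, y⟩
    by_cases h : exB (fun y' => !(Sv N V k x y' == 0)) (y + 1) = true
    · obtain ⟨y', -, hy'⟩ := (exB_iff _ _).1 h
      have h1 := hdef k x y' (by simpa using hy')
      rw [← hsφ' ∅, ← M.dom] at h1
      obtain ⟨w, hw⟩ := Part.dom_iff_mem.1 h1
      refine ⟨w, ?_⟩
      rw [Bool.or_eq_true]
      right
      show (VD 0 (z3 (s k) x w) == 1) = true
      rw [beq_iff_eq]
      exact (hVD0 _ _ _).2 hw
    · refine ⟨0, ?_⟩
      rw [Bool.or_eq_true]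
      left
      show (!(exB (fun y' => !(Sv N V k x y' == 0)) (y + 1))) = true
      rw [Bool.not_eq_true] at h
      rw [h]; rfl)
  refine ⟨fun x y => sumB (fun k => w ((k, x), y)) (x + 1), ?_, ?_⟩
  · refine c_sumB (q := fun (p : ℕ × ℕ) k => w ((k, p.1), p.2)) ?_ (by fun_prop)
    exact hw.comp (show Computable fun r : (ℕ × ℕ) × ℕ => ((r.2, r.1.1), r.1.2) by fun_prop)
  intro A hA t' ht'
  have hA' := c_chi hA
  -- the construction
  obtain ⟨ce, hce⟩ := Nat.Partrec.Code.exists_code.1 (c_Step hN hV hA' ht').partrec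
  have he : ∀ p, (Denumerable.ofNat Code (encode ce)).eval (encode p) =
      Part.some (encode (Step N V (chi A) t' p)) := by
    intro p
    rw [Denumerable.ofNat_encode, hce]
    simp only [Encodable.encodek, Part.coe_some, Part.bind_some]
    rfl
  obtain ⟨st, f, hst, hf, hfm, hf0, hstep, hlev⟩ := exists_seq he
  let B : Set ℕ := {n | fb st n = 1}
  have hBfb : ∀ n, chi B n = fb st n := by
    intro n
    have h1 : fb st n = 0 ∨ fb st n = 1 := bit_eq_zero_or_one _ _
    unfold chi
    rcases h1 with h | h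
    · rw [if_neg (show n ∉ B by show ¬ fb st n = 1; omega), h]
    · rw [if_pos (show n ∈ B from h), h]
  have hcB : ComputablePred fun x => x ∈ B := by
    have h1 : Computable fun n => fb st n := by
      unfold fb
      have h2 : Computable fun n => st (n + 1) := hst.comp (by fun_prop)
      fun_prop
    exact cp_eq h1 (Computable.const 1)
  refine ⟨B, hcB, ?_, ?_⟩
  · -- the set is complex
    intro j hj
    obtain ⟨K, hK⟩ := odd_req (T := t') hTab hstep hfm j (by
      intro n
      rw [hV0]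
      rcases Gv_cases M ∅ j n (t' n) with h | ⟨y', -, v, -, hv, h⟩
      · left; exact h.1
      · right
        rw [h, ← hBfb]
        rw [hj n, Part.mem_some_iff] at hv
        rw [hv])
    refine ⟨K, fun x hx => ?_⟩
    have h1 := hK x hx
    rw [hV0] at h1
    have h2 : (M.Φ ∅ j x).Dom := by rw [M.dom, hj x]; trivial
    obtain ⟨y, hy⟩ := Part.dom_iff_mem.1 h2
    refine ⟨y, hy, ?_⟩
    by_contra hcon
    rcases Gv_cases M ∅ j x (t' x) with h | ⟨y', -, v, -, hv, h⟩
    · exact h.2 y (by omega) hy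
    · omega
  · -- the set does not help
    intro t ht hIO
    by_contra hcon
    unfold RelBlum.CompIO at hcon
    push Not at hcon
    obtain ⟨i, hi, n0, hn0⟩ := hcon
    have hGB : ∀ x y a, (∀ n < N (z3 i x y), bit a n = fb st n) →
        V a (z3 i x y) = Gv M B i x y := by
      intro x y a h
      exact hNV' _ _ _ _ _ fun n hn => by rw [hBfb, h n hn]
    obtain ⟨K, hK1, hK2⟩ := even_req (A := chi A) (T := t') hTab hstep hfm i (by
      intro x y a h
      rw [hGB x y a h]
      rcases Gv_cases M B i x y with h | ⟨y', -, v, -, hv, h⟩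
      · left; exact h.1
      · right
        rw [h]
        rw [hi x, Part.mem_some_iff] at hv
        rw [hv])
    let tb : List ℕ := (List.range (f K)).map (chi A)
    let k : ℕ := encode ((encode ce, i, tb) : ℕ × ℕ × List ℕ)
    have hk : Denumerable.ofNat (ℕ × ℕ × List ℕ) k = (encode ce, i, tb) :=
      Denumerable.ofNat_encode _
    have hSlt : ∀ x y, x < f K → Sv N V k x y = chi A x + 1 := by
      intro x y hx
      unfold Sv
      rw [hk]
      simp [tb, hx]
    have hSge : ∀ x y, f K ≤ x → Sv N V k x y = Pv N V (lev (encode ce) (max x y)) i (z3 i x y) := by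
      intro x y hx
      unfold Sv
      rw [hk]
      have h1 : tb[x]? = Option.none := by simp [tb, hx]
      simp only [h1, Option.elim_none]
    have hblock : ∀ m, f K ≤ m → ∃ κ, K ≤ κ ∧ f κ ≤ m ∧ m < f (κ + 1) := by
      intro m hm
      have hex : ∃ κ, m < f (κ + 1) := ⟨m, by have := hfm.id_le (m + 1); simp at this; omega⟩
      refine ⟨max K (Nat.find hex), le_max_left _ _, ?_, ?_⟩
      · rcases le_total K (Nat.find hex) with h | h
        · rw [max_eq_right h]
          rcases Nat.eq_zero_or_pos (Nat.find hex) with h0 | h0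
          · rw [h0, hf0]; omega
          · have h1 := Nat.find_min hex (show Nat.find hex - 1 < Nat.find hex by omega)
            rw [show Nat.find hex - 1 + 1 = Nat.find hex by omega] at h1
            omega
        · rw [max_eq_left h]; exact hm
      · have h1 := Nat.find_spec hex
        have h2 := hfm.monotone (show Nat.find hex + 1 ≤ max K (Nat.find hex) + 1 by omega)
        omega
    have hSval : ∀ x y, Sv N V k x y = 0 ∨ Sv N V k x y = chi A x + 1 := by
      intro x y
      by_cases hx : x < f K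
      · right; exact hSlt x y hx
      · rw [hSge x y (by omega)]
        obtain ⟨κ, hκ, h1, h2⟩ := hblock (max x y) (by omega)
        rw [hlev κ _ h1 h2]
        rcases Pv_cases (N := N) (V := V) (κ, st κ, f κ) i (z3 i x y) with h | ⟨q', h3, h4⟩
        · left; exact h
        · rw [h4]
          exact hK2 κ hκ x (by omega) y (by omega) q' h3
    have hSpos : ∀ x y, y ∈ M.Φ B i x → Sv N V k x y ≠ 0 := by
      intro x y hy
      by_cases hx : x < f K
      · rw [hSlt x y hx]; omega
      · rw [hSge x y (by omega)]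
        obtain ⟨κ, hκ, h1, h2⟩ := hblock (max x y) (by omega)
        rw [hlev κ _ h1 h2]
        refine Pv_ne ?_
        simp only
        set Mx := max (N (z3 i x y)) (κ + (2 * i + 1)) with hMx
        have h3 : ∀ n < Mx, bit ((st Mx).1 % 2 ^ Mx) n = fb st n := by
          intro n hn
          rw [bit_mod hn]
          exact bit_final (A := chi A) (T := t') hstep (quiet_zero Mx) (by omega)
        refine ⟨(st Mx).1 % 2 ^ Mx, Nat.mod_lt _ (by positivity), fun n hn => ?_, ?_⟩
        · rw [h3 n (by omega)]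
          exact hK1 κ hκ n hn
        · rw [hGB x y _ fun n hn => h3 n (by omega)]
          rw [Gv_pos le_rfl hy (by rw [hi x]; exact Part.mem_some _)]
          omega
    have hΦB : ∀ x, ∃ y, y ∈ M.Φ B i x := by
      intro x
      have h2 : (M.Φ B i x).Dom := by rw [M.dom, hi x]; trivial
      exact Part.dom_iff_mem.1 h2
    have hidx : M.Index ∅ A (s k) := by
      intro x
      rw [hsφ']
      obtain ⟨y, hy⟩ := hΦB x
      obtain ⟨v, hv⟩ := Part.dom_iff_mem.1 (hdef k x y (hSpos x y hy))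
      obtain ⟨y', h1, -, h2⟩ := (hhmem k x v).1 hv
      rw [Part.eq_some_iff]
      rcases hSval x y' with h | h
      · exact absurd h h1
      · rw [h] at h2
        rw [show chi A x = v by omega]
        exact hv
    obtain ⟨x, hx, y, hy, hlt⟩ := hIO (s k) hidx (max (max (f K) k) n0)
    obtain ⟨y', hy'⟩ := hΦB x
    have h1 : y' ≤ t x := hn0 x (by omega) y' hy'
    have h2 := (hw1 ((k, x), t x)).1
    have h3 : exB (fun y' => !(Sv N V k x y' == 0)) (t x + 1) = true := by
      rw [exB_iff]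
      exact ⟨y', by omega, by simpa using hSpos x y' hy'⟩
    simp only [h3, Bool.not_true, Bool.false_or, beq_iff_eq] at h2
    rw [hVD0] at h2
    have h4 := Part.mem_unique h2 hy
    have h5 := le_sumB (f := fun k => w ((k, x), t x)) (show k < x + 1 by omega)
    simp only at h5 hlt
    omega

end Pool.Agent.V7H66.Blum
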