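import Pool.Agent.V7H66.Blum.Use

/-!
Total functionals are truth table functionals, effectively.
-/

set_option autoImplicit false

namespace Pool.Agent.V7H66.Blum

open Encodable Nat.Partrec
open Pool.Agent.Helper446.RE Pool.Agent.H587R2.NCE

@[fun_prop] theorem c_evaln {α : Type*} [Primcodable α] {k n : α → ℕ} {c : α → Code}
    (hk : Computable k) (hc : Computable c) (hn : Computable n) :
    Computable (fun x => Code.evaln (k x) (c x) (n x)) :=
  Computable.comp (f := fun x : (ℕ × Code) × ℕ => Code.evaln x.1.1 x.1.2 x.2)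
    (g := fun x => ((k x, c x), n x)) Code.primrec_evaln.to_comp ((hk.pair hc).pair hn)

/-- Effective minimization of total searches. -/
theorem exists_find {α : Type*} [Primcodable α] {q : α → ℕ → Bool}
    (hq : Computable fun p : α × ℕ => q p.1 p.2) (h : ∀ a, ∃ n, q a n = true) :
    ∃ f : α → ℕ, Computable f ∧ ∀ a, q a (f a) = true ∧ ∀ m < f a, q a m = false := by
  classical
  refine ⟨fun a => Nat.find (h a), ?_, fun a => ⟨Nat.find_spec (h a), fun m hm => ?_⟩⟩
  · have h1 : Partrec₂ fun (a : α) (n : ℕ) => (Part.some (q a n) : Part Bool) := hq.partrec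
    have h2 : Partrec fun a : α => Nat.rfind fun n => (Part.some (q a n) : Part Bool) :=
      Partrec.rfind h1
    refine h2.of_eq_tot fun a => ?_
    rw [Nat.mem_rfind]
    refine ⟨?_, fun {m} hm => ?_⟩
    · rw [Nat.find_spec (h a)]
      exact Part.mem_some _
    · have h3 := Nat.find_min (h a) hm
      rw [Bool.not_eq_true] at h3
      rw [h3]
      exact Part.mem_some _
  · have h3 := Nat.find_min (h a) hm
    rwa [Bool.not_eq_true] at h3

/-- The oracle given by a point of Cantor space. -/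
def orc (b : ℕ → Bool) : ℕ →. ℕ := fun k => Part.some (b k).toNat

theorem chi_toNat (X : Set ℕ) : ∃ b : ℕ → Bool, ∀ k, chi X k = (b k).toNat := by
  classical
  refine ⟨fun k => decide (k ∈ X), fun k => ?_⟩
  unfold chi
  by_cases h : k ∈ X <;> simp [h]

theorem orc_chi (b : ℕ → Bool) : orc b = fun k => Part.some (chi {k | b k = true} k) := by
  funext k
  unfold orc chi
  cases h : b k <;> simp [h]

theorem cut_fin {b : ℕ → Bool} {a n : ℕ} (h : ∀ k < n, (b k).toNat = bit a k) :
    cut (orc b) n = fin a n := by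
  funext k
  unfold cut fin
  split_ifs with hk
  · unfold orc; rw [h k hk]
  · rfl

/-- Compactness. -/
theorem compact (c : OCode) (hc : ∀ (X : Set ℕ) z, (run X c z).Dom) (z : ℕ) :
    ∃ n, ∀ b : ℕ → Bool, (c.eval (cut (orc b) n) z).Dom := by
  let U : ℕ → Set (ℕ → Bool) := fun n => {b | (c.eval (cut (orc b) n) z).Dom}
  have hopen : ∀ n, IsOpen (U n) := by
    intro n
    rw [isOpen_iff_mem_nhds]
    intro b hb
    have h1 : {b' : ℕ → Bool | ∀ k ∈ Finset.range n, b' k = b k} ∈ nhds b := by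
      have h2 : IsOpen {b' : ℕ → Bool | ∀ k ∈ Finset.range n, b' k = b k} := by
        have h3 : {b' : ℕ → Bool | ∀ k ∈ Finset.range n, b' k = b k} =
            ⋂ k ∈ Finset.range n, (fun b' : ℕ → Bool => b' k) ⁻¹' {b k} := by
          ext b'; simp
        rw [h3]
        exact isOpen_biInter_finset fun k _ =>
          (isOpen_discrete _).preimage (continuous_apply k)
      exact h2.mem_nhds fun k _ => rfl
    refine Filter.mem_of_superset h1 fun b' hb' => ?_
    have h4 : cut (orc b') n = cut (orc b) n := by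
      funext k
      unfold cut
      split_ifs with hk
      · unfold orc; rw [hb' k (Finset.mem_range.2 hk)]
      · rfl
    show (c.eval (cut (orc b') n) z).Dom
    rw [h4]
    exact hb
  have hmono : ∀ n m, n ≤ m → U n ⊆ U m := by
    intro n m hnm b hb
    obtain ⟨v, hv⟩ := Part.dom_iff_mem.1 hb
    exact Part.dom_iff_mem.2 ⟨v, OCode.eval_mono (cut_mono hnm) c _ _ hv⟩
  have hcov : (Set.univ : Set (ℕ → Bool)) ⊆ ⋃ n, U n := by
    intro b _
    have h1 := hc {k | b k = true} z
    unfold run at h1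
    rw [← orc_chi] at h1
    obtain ⟨v, hv⟩ := Part.dom_iff_mem.1 h1
    obtain ⟨n, hn⟩ := OCode.eval_cut _ c _ _ hv
    exact Set.mem_iUnion.2 ⟨n, Part.dom_iff_mem.2 ⟨v, hn⟩⟩
  obtain ⟨n, hn⟩ := isCompact_univ.elim_directed_cover U hopen hcov
    (directed_of_isDirected_le fun n m h => hmono n m h)
  exact ⟨n, fun b => hn (Set.mem_univ b)⟩

theorem fin_congr {a a' n : ℕ} (h : ∀ k < n, bit a k = bit a' k) : fin a n = fin a' n := by
  funext k
  unfold fin
  split_ifs with hk
  · rw [h k hk]
  · rfl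

theorem bit_mod {a n k : ℕ} (hk : k < n) : bit (a % 2 ^ n) k = bit a k := by
  rw [bit_testBit, bit_testBit, Nat.testBit_mod_two_pow]
  simp [hk]

/-- A total functional is computed by a truth table, effectively. -/
theorem tt (c : OCode) (hc : ∀ (X : Set ℕ) z, (run X c z).Dom) :
    ∃ (N : ℕ → ℕ) (V : ℕ → ℕ → ℕ), Computable N ∧ (Computable fun p : ℕ × ℕ => V p.1 p.2) ∧
      ∀ (z : ℕ) (X : Set ℕ) (a : ℕ), (∀ n < N z, chi X n = bit a n) →
        run X c z = Part.some (V a z) := by
  obtain ⟨e, he⟩ := Nat.Partrec.Code.exists_code.1 (OCode.partrec_fin c)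
  have he' : ∀ (a n z : ℕ), e.eval (encode ((a, n), z)) = (c.eval (fin a n) z).map encode := by
    intro a n z
    have := congrFun he (encode ((a, n), z))
    simpa using this
  -- the search
  obtain ⟨q, hqd⟩ : ∃ q : ℕ → ℕ → Bool, ∀ z w, q z w = allB (fun a : ℕ =>
    (Code.evaln w.unpair.2 e (encode ((a, w.unpair.1), z))).isSome) (2 ^ w.unpair.1) :=
    ⟨_, fun _ _ => rfl⟩
  have hq : Computable fun p : ℕ × ℕ => q p.1 p.2 := by
    have h4 : Computable fun r : (ℕ × ℕ) × ℕ =>
        (Code.evaln r.1.2.unpair.2 e (encode ((r.2, r.1.2.unpair.1), r.1.1))).isSome := by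
      fun_prop
    have h5 : Computable fun p : ℕ × ℕ => 2 ^ p.2.unpair.1 := by fun_prop
    have h6 := c_allB (q := fun (p : ℕ × ℕ) (a : ℕ) =>
      (Code.evaln p.2.unpair.2 e (encode ((a, p.2.unpair.1), p.1))).isSome)
      (f := fun p : ℕ × ℕ => 2 ^ p.2.unpair.1) h4 h5
    exact h6.of_eq fun p => (hqd p.1 p.2).symm
  have hex : ∀ z, ∃ w, q z w = true := by
    intro z
    obtain ⟨n, hn⟩ := compact c hc z
    have h1 : ∀ a : ℕ, ∃ k : ℕ, (Code.evaln k e (encode ((a, n), z))).isSome = true := by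
      intro a
      have h2 := hn fun k => a.testBit k
      rw [cut_fin (a := a) (fun k _ => (bit_testBit a k).symm)] at h2
      have h3 : (e.eval (encode ((a, n), z))).Dom := by rw [he']; exact h2
      obtain ⟨v, hv⟩ := Part.dom_iff_mem.1 h3
      obtain ⟨k, hk⟩ := Code.evaln_complete.1 hv
      exact ⟨k, Option.isSome_iff_exists.2 ⟨v, Option.mem_def.1 hk⟩⟩
    have h4 : ∀ m : ℕ, ∃ k : ℕ, ∀ a : ℕ, a < m →
        (Code.evaln k e (encode ((a, n), z))).isSome = true := by
      intro m
      induction m with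
      | zero => exact ⟨0, fun a ha => absurd ha (by omega)⟩
      | succ m ih =>
        obtain ⟨k, hk⟩ := ih
        obtain ⟨k', hk'⟩ := h1 m
        refine ⟨max k k', fun a ha => ?_⟩
        rcases Nat.lt_succ_iff_lt_or_eq.1 ha with ha | rfl
        · obtain ⟨v, hv⟩ := Option.isSome_iff_exists.1 (hk a ha)
          exact Option.isSome_iff_exists.2 ⟨v, Code.evaln_mono (le_max_left _ _) hv⟩
        · obtain ⟨v, hv⟩ := Option.isSome_iff_exists.1 hk'
          exact Option.isSome_iff_exists.2 ⟨v, Code.evaln_mono (le_max_right _ _) hv⟩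
    obtain ⟨k, hk⟩ := h4 (2 ^ n)
    refine ⟨Nat.pair n k, ?_⟩
    rw [hqd, allB_iff, Nat.unpair_pair]
    exact hk
  obtain ⟨w, hw, hw2⟩ := exists_find hq hex
  let N : ℕ → ℕ := fun z => (w z).unpair.1
  have hN : Computable N := cfst (cunpair hw)
  have hdom : ∀ z a, (c.eval (fin a (N z)) z).Dom := by
    intro z a
    have h1 := (hw2 z).1
    rw [hqd, allB_iff] at h1
    have h2 := h1 (a % 2 ^ N z) (Nat.mod_lt _ (by positivity))
    obtain ⟨v, hv⟩ := Option.isSome_iff_exists.1 h2
    have h3 : v ∈ e.eval (encode ((a % 2 ^ N z, N z), z)) :=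
      Code.evaln_complete.2 ⟨_, hv⟩
    rw [he'] at h3
    have h4 : (c.eval (fin (a % 2 ^ N z) (N z)) z).Dom := by
      rw [Part.dom_iff_mem]
      obtain ⟨u, hu, -⟩ := (Part.mem_map_iff _).1 h3
      exact ⟨u, hu⟩
    rwa [fin_congr (a' := a) (fun k hk => bit_mod hk)] at h4
  have hV : Computable fun p : ℕ × ℕ => (c.eval (fin p.1 (N p.2)) p.2).get (hdom p.2 p.1) := by
    have h0 : Computable fun p : ℕ × ℕ => ((p.1, N p.2), p.2) :=
      cpair (cpair Computable.fst (hN.comp Computable.snd)) Computable.snd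
    have h1 : Partrec fun p : ℕ × ℕ => c.eval (fin p.1 (N p.2)) p.2 :=
      Partrec.comp (f := fun p : (ℕ × ℕ) × ℕ => c.eval (fin p.1.1 p.1.2) p.2)
        (g := fun p : ℕ × ℕ => ((p.1, N p.2), p.2)) (OCode.partrec_fin c) h0
    exact Partrec.of_eq_tot (f := fun p : ℕ × ℕ => c.eval (fin p.1 (N p.2)) p.2) h1
      fun p => Part.get_mem _
  have hfin : ∀ (z : ℕ) (X : Set ℕ) (a : ℕ), (∀ n < N z, chi X n = bit a n) →
      run X c z = Part.some ((c.eval (fin a (N z)) z).get (hdom z a)) := by
    intro z X a h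
    obtain ⟨b, hb⟩ := chi_toNat X
    have h1 : cut (orc b) (N z) = fin a (N z) :=
      cut_fin fun k hk => by rw [← hb]; exact h k hk
    have h2 : ∀ v, v ∈ c.eval (fin a (N z)) z → v ∈ run X c z := by
      intro v hv
      rw [← h1] at hv
      have h3 := OCode.eval_mono cut_le c _ _ hv
      have h4 : orc b = fun k => Part.some (chi X k) := by
        funext k; unfold orc; rw [hb]
      rw [h4] at h3
      exact h3
    exact Part.eq_some_iff.2 (h2 _ (Part.get_mem _))
  exact ⟨N, fun a z => (c.eval (fin a (N z)) z).get (hdom z a), hN, hV, hfin⟩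

end Pool.Agent.V7H66.Blum
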