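import Pool.Agent.V7H66.Blum.Defs
import Pool.Agent.H587R2.NCE.Base

/-!
The use principle for programs with an oracle, and compactness.
-/

set_option autoImplicit false

namespace Pool.Agent.V7H66.Blum

open Encodable Nat.Partrec
open Pool.Agent.Helper446.RE

theorem OCode.mem_pair {o : ℕ →. ℕ} {f g : OCode} {z v : ℕ} : v ∈ (OCode.pair f g).eval o z ↔
    ∃ a ∈ f.eval o z, ∃ b ∈ g.eval o z, v = Nat.pair a b := by
  show v ∈ ((f.eval o z).bind fun u => (g.eval o z).bind fun v => Part.some (Nat.pair u v)) ↔ _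
  simp only [Part.mem_bind_iff, Part.mem_some_iff]

theorem OCode.mem_comp {o : ℕ →. ℕ} {f g : OCode} {z v : ℕ} : v ∈ (OCode.comp f g).eval o z ↔
    ∃ a ∈ g.eval o z, v ∈ f.eval o a := by
  show v ∈ (g.eval o z).bind (f.eval o) ↔ _
  exact Part.mem_bind_iff

theorem OCode.mem_rfind {o : ℕ →. ℕ} {f : OCode} {z v : ℕ} : v ∈ (OCode.rfind f).eval o z ↔
    0 ∈ f.eval o (Nat.pair z v) ∧ ∀ m < v, ∃ b ∈ f.eval o (Nat.pair z m), b ≠ 0 := by
  show v ∈ (Nat.rfind fun n => (f.eval o (Nat.pair z n)).map fun m => decide (m = 0)) ↔ _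
  rw [Nat.mem_rfind]
  simp only [Part.mem_map_iff, decide_eq_true_eq, decide_eq_false_iff_not]
  constructor
  · rintro ⟨⟨a, ha, h0⟩, h⟩
    subst h0
    exact ⟨ha, fun m hm => h hm⟩
  · rintro ⟨h0, h⟩
    exact ⟨⟨0, h0, rfl⟩, fun {m} hm => h m hm⟩

theorem OCode.eval_mono {o o' : ℕ →. ℕ} (h : ∀ k v, v ∈ o k → v ∈ o' k) (c : OCode) :
    ∀ z v, v ∈ c.eval o z → v ∈ c.eval o' z := by
  induction c with
  | zero => exact fun z v hv => hv
  | succ => exact fun z v hv => hv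
  | left => exact fun z v hv => hv
  | right => exact fun z v hv => hv
  | oracle => exact h
  | pair f g ihf ihg =>
    intro z v hv
    rw [mem_pair] at hv ⊢
    obtain ⟨a, ha, b, hb, hv⟩ := hv
    exact ⟨a, ihf _ _ ha, b, ihg _ _ hb, hv⟩
  | comp f g ihf ihg =>
    intro z v hv
    rw [mem_comp] at hv ⊢
    obtain ⟨a, ha, hv⟩ := hv
    exact ⟨a, ihg _ _ ha, ihf _ _ hv⟩
  | prec f g ihf ihg =>
    intro z
    simp only [OCode.eval]
    generalize z.unpair.2 = n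
    induction n with
    | zero => exact fun v hv => ihf _ _ hv
    | succ n ih =>
      intro v hv
      simp only [Part.mem_bind_iff] at hv ⊢
      obtain ⟨a, ha, hv⟩ := hv
      exact ⟨a, ih _ ha, ihg _ _ hv⟩
  | rfind f ihf =>
    intro z v hv
    rw [mem_rfind] at hv ⊢
    refine ⟨ihf _ _ hv.1, fun m hm => ?_⟩
    obtain ⟨b, hb, h3⟩ := hv.2 m hm
    exact ⟨b, ihf _ _ hb, h3⟩

/-- The oracle restricted to the numbers below `n`. -/
def cut (o : ℕ →. ℕ) (n : ℕ) : ℕ →. ℕ := fun k => if k < n then o k else Part.none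

theorem mem_cut {o : ℕ →. ℕ} {n k v : ℕ} : v ∈ cut o n k ↔ k < n ∧ v ∈ o k := by
  unfold cut
  split_ifs with h
  · simp [h]
  · simp [h]

theorem cut_mono {o : ℕ →. ℕ} {n m : ℕ} (h : n ≤ m) : ∀ k v, v ∈ cut o n k → v ∈ cut o m k := by
  intro k v hv
  rw [mem_cut] at hv ⊢
  exact ⟨hv.1.trans_le h, hv.2⟩

theorem cut_le {o : ℕ →. ℕ} {n : ℕ} : ∀ k v, v ∈ cut o n k → v ∈ o k := by
  intro k v hv
  rw [mem_cut] at hv
  exact hv.2

/-- The use principle. -/
theorem OCode.eval_cut (o : ℕ →. ℕ) (c : OCode) :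
    ∀ z v, v ∈ c.eval o z → ∃ n, v ∈ c.eval (cut o n) z := by
  induction c with
  | zero => exact fun z v hv => ⟨0, hv⟩
  | succ => exact fun z v hv => ⟨0, hv⟩
  | left => exact fun z v hv => ⟨0, hv⟩
  | right => exact fun z v hv => ⟨0, hv⟩
  | oracle => exact fun z v hv => ⟨z + 1, mem_cut.2 ⟨Nat.lt_succ_self z, hv⟩⟩
  | pair f g ihf ihg =>
    intro z v hv
    simp only [mem_pair] at hv ⊢
    obtain ⟨a, ha, b, hb, hv⟩ := hv
    obtain ⟨n, hn⟩ := ihf _ _ ha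
    obtain ⟨m, hm⟩ := ihg _ _ hb
    exact ⟨max n m, a, OCode.eval_mono (cut_mono (le_max_left _ _)) f _ _ hn, b,
      OCode.eval_mono (cut_mono (le_max_right _ _)) g _ _ hm, hv⟩
  | comp f g ihf ihg =>
    intro z v hv
    simp only [mem_comp] at hv ⊢
    obtain ⟨a, ha, hv⟩ := hv
    obtain ⟨n, hn⟩ := ihg _ _ ha
    obtain ⟨m, hm⟩ := ihf _ _ hv
    exact ⟨max n m, a, OCode.eval_mono (cut_mono (le_max_left _ _)) g _ _ hn,
      OCode.eval_mono (cut_mono (le_max_right _ _)) f _ _ hm⟩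
  | prec f g ihf ihg =>
    intro z
    simp only [OCode.eval]
    generalize z.unpair.2 = n
    induction n with
    | zero => exact fun v hv => ihf _ _ hv
    | succ n ih =>
      intro v hv
      simp only [Part.mem_bind_iff] at hv ⊢
      obtain ⟨a, ha, hv⟩ := hv
      obtain ⟨k, hk⟩ := ih _ ha
      obtain ⟨m, hm⟩ := ihg _ _ hv
      refine ⟨max k m, a, ?_, OCode.eval_mono (cut_mono (le_max_right _ _)) g _ _ hm⟩
      have h := OCode.eval_mono (cut_mono (o := o) (le_max_left k m)) (.prec f g)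
        (Nat.pair z.unpair.1 n) a
      simp only [OCode.eval, Nat.unpair_pair] at h
      exact h hk
  | rfind f ihf =>
    intro z v hv
    rw [mem_rfind] at hv
    obtain ⟨h0, h2⟩ := hv
    have h3 : ∀ w, w ≤ v → ∃ n, ∀ m < w, ∃ b ∈ f.eval (cut o n) (Nat.pair z m), b ≠ 0 := by
      intro w
      induction w with
      | zero => exact fun _ => ⟨0, fun m hm => absurd hm (by omega)⟩
      | succ w ih =>
        intro hw
        obtain ⟨n, hn⟩ := ih (by omega)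
        obtain ⟨b, hb, hb0⟩ := h2 w (by omega)
        obtain ⟨k, hk⟩ := ihf _ _ hb
        refine ⟨max n k, fun m hm => ?_⟩
        rcases Nat.lt_succ_iff_lt_or_eq.1 hm with hm | rfl
        · obtain ⟨b', hb', hb'0⟩ := hn m hm
          exact ⟨b', OCode.eval_mono (cut_mono (le_max_left _ _)) f _ _ hb', hb'0⟩
        · exact ⟨b, OCode.eval_mono (cut_mono (le_max_right _ _)) f _ _ hk, hb0⟩
    obtain ⟨n, hn⟩ := h3 v le_rfl
    obtain ⟨k, hk⟩ := ihf _ _ h0
    refine ⟨max n k, mem_rfind.2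
      ⟨OCode.eval_mono (cut_mono (le_max_right _ _)) f _ _ hk, fun m hm => ?_⟩⟩
    obtain ⟨b, hb, hb0⟩ := hn m hm
    exact ⟨b, OCode.eval_mono (cut_mono (le_max_left _ _)) f _ _ hb, hb0⟩

/-- The digit of `a` at the position `n`. -/
def bit (a n : ℕ) : ℕ := a / 2 ^ n % 2

theorem bit_eq_zero_or_one (a n : ℕ) : bit a n = 0 ∨ bit a n = 1 := Nat.mod_two_eq_zero_or_one _

theorem bit_lt (a n : ℕ) : bit a n < 2 := Nat.mod_lt _ (by norm_num)

theorem bit_zero (n : ℕ) : bit 0 n = 0 := by simp [bit]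

theorem bit_testBit (a n : ℕ) : bit a n = (a.testBit n).toNat := by
  rw [Nat.testBit_eq_decide_div_mod_eq, bit]
  rcases Nat.mod_two_eq_zero_or_one (a / 2 ^ n) with h | h <;> simp [h]

theorem c_pow2 : Computable fun n : ℕ => 2 ^ n := by
  have h := Computable.nat_rec (f := fun n : ℕ => n) (g := fun _ : ℕ => 1)
    (h := fun (_ : ℕ) (y : ℕ × ℕ) => 2 * y.2) Computable.id (Computable.const 1)
    (Primrec.nat_mul.to_comp.comp (Computable.const 2)
      (Computable.snd.comp Computable.snd))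
  refine h.of_eq fun n => ?_
  induction n with
  | zero => rfl
  | succ n ih => simp only at ih ⊢; rw [ih, pow_succ, mul_comm]

@[fun_prop] theorem c_pow {α : Type*} [Primcodable α] {f : α → ℕ} (hf : Computable f) :
    Computable (fun x => 2 ^ f x) := c_pow2.comp hf

@[fun_prop] theorem c_bit {α : Type*} [Primcodable α] {f g : α → ℕ} (hf : Computable f)
    (hg : Computable g) : Computable (fun x => bit (f x) (g x)) := by
  have h : Computable fun p : ℕ × ℕ => p.1 / 2 ^ p.2 % 2 := by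
    have h1 : Computable fun p : ℕ × ℕ => 2 ^ p.2 := by fun_prop
    exact Primrec.nat_mod.to_comp.comp (Primrec.nat_div.to_comp.comp Computable.fst h1)
      (Computable.const 2)
  exact h.comp (hf.pair hg)

/-- The oracle given by the first `n` digits of `a`. -/
def fin (a n : ℕ) : ℕ →. ℕ := fun k => if k < n then Part.some (bit a k) else Part.none

theorem mem_fin {a n k v : ℕ} : v ∈ fin a n k ↔ k < n ∧ v = bit a k := by
  unfold fin
  split_ifs with h
  · simp [h]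
  · simp [h]

/-- Computations with finite oracles are uniformly computable. -/
theorem OCode.partrec_fin (c : OCode) :
    Partrec fun p : (ℕ × ℕ) × ℕ => c.eval (fin p.1.1 p.1.2) p.2 := by
  induction c with
  | zero => exact (show Computable fun p : (ℕ × ℕ) × ℕ => 0 by fun_prop).partrec
  | succ => exact (show Computable fun p : (ℕ × ℕ) × ℕ => p.2 + 1 by fun_prop).partrec
  | left => exact (show Computable fun p : (ℕ × ℕ) × ℕ => p.2.unpair.1 by fun_prop).partrec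
  | right => exact (show Computable fun p : (ℕ × ℕ) × ℕ => p.2.unpair.2 by fun_prop).partrec
  | oracle =>
    have h1 : Computable fun p : (ℕ × ℕ) × ℕ => decide (p.2 < p.1.2) :=
      cdecide (cp_lt (by fun_prop) (by fun_prop))
    have h2 : Computable fun p : (ℕ × ℕ) × ℕ => bit p.1.1 p.2 := by fun_prop
    refine (Partrec.cond h1 h2.partrec Partrec.none).of_eq fun p => ?_
    simp only [OCode.eval, fin]
    by_cases h : p.2 < p.1.2 <;> simp [h]
  | pair f g ihf ihg =>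
    have h1 : Partrec fun q : ((ℕ × ℕ) × ℕ) × ℕ => g.eval (fin q.1.1.1 q.1.1.2) q.1.2 :=
      Partrec.comp (f := fun p : (ℕ × ℕ) × ℕ => g.eval (fin p.1.1 p.1.2) p.2)
        (g := fun q : ((ℕ × ℕ) × ℕ) × ℕ => q.1) ihg Computable.fst
    have h2 : Partrec₂ fun (p : (ℕ × ℕ) × ℕ) (a : ℕ) =>
        (g.eval (fin p.1.1 p.1.2) p.2).bind fun b => Part.some (Nat.pair a b) :=
      Partrec.bind (f := fun q : ((ℕ × ℕ) × ℕ) × ℕ => g.eval (fin q.1.1.1 q.1.1.2) q.1.2)
        (g := fun (q : ((ℕ × ℕ) × ℕ) × ℕ) (b : ℕ) => Part.some (Nat.pair q.2 b)) h1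
        (show Computable fun r : (((ℕ × ℕ) × ℕ) × ℕ) × ℕ => Nat.pair r.1.2 r.2 by
          fun_prop).partrec
    exact Partrec.bind (f := fun p : (ℕ × ℕ) × ℕ => f.eval (fin p.1.1 p.1.2) p.2)
      (g := fun (p : (ℕ × ℕ) × ℕ) (a : ℕ) =>
        (g.eval (fin p.1.1 p.1.2) p.2).bind fun b => Part.some (Nat.pair a b)) ihf h2
  | comp f g ihf ihg =>
    have h1 : Partrec₂ fun (p : (ℕ × ℕ) × ℕ) (a : ℕ) => f.eval (fin p.1.1 p.1.2) a :=
      Partrec.comp (f := fun p : (ℕ × ℕ) × ℕ => f.eval (fin p.1.1 p.1.2) p.2)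
        (g := fun q : ((ℕ × ℕ) × ℕ) × ℕ => (q.1.1, q.2)) ihf
        (show Computable fun q : ((ℕ × ℕ) × ℕ) × ℕ => (q.1.1, q.2) by fun_prop)
    exact Partrec.bind (f := fun p : (ℕ × ℕ) × ℕ => g.eval (fin p.1.1 p.1.2) p.2)
      (g := fun (p : (ℕ × ℕ) × ℕ) (a : ℕ) => f.eval (fin p.1.1 p.1.2) a) ihg h1
  | prec f g ihf ihg =>
    have h1 : Partrec fun p : (ℕ × ℕ) × ℕ => f.eval (fin p.1.1 p.1.2) p.2.unpair.1 :=
      Partrec.comp (f := fun p : (ℕ × ℕ) × ℕ => f.eval (fin p.1.1 p.1.2) p.2)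
        (g := fun p : (ℕ × ℕ) × ℕ => (p.1, p.2.unpair.1)) ihf
        (show Computable fun p : (ℕ × ℕ) × ℕ => (p.1, p.2.unpair.1) by fun_prop)
    have h2 : Partrec₂ fun (p : (ℕ × ℕ) × ℕ) (q : ℕ × ℕ) =>
        g.eval (fin p.1.1 p.1.2) (Nat.pair p.2.unpair.1 (Nat.pair q.1 q.2)) :=
      Partrec.comp (f := fun p : (ℕ × ℕ) × ℕ => g.eval (fin p.1.1 p.1.2) p.2)
        (g := fun r : ((ℕ × ℕ) × ℕ) × (ℕ × ℕ) =>
          (r.1.1, Nat.pair r.1.2.unpair.1 (Nat.pair r.2.1 r.2.2))) ihg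
        (show Computable fun r : ((ℕ × ℕ) × ℕ) × (ℕ × ℕ) =>
          (r.1.1, Nat.pair r.1.2.unpair.1 (Nat.pair r.2.1 r.2.2)) by fun_prop)
    have h3 : Computable fun p : (ℕ × ℕ) × ℕ => p.2.unpair.2 := by fun_prop
    exact Partrec.nat_rec (f := fun p : (ℕ × ℕ) × ℕ => p.2.unpair.2)
      (g := fun p : (ℕ × ℕ) × ℕ => f.eval (fin p.1.1 p.1.2) p.2.unpair.1)
      (h := fun (p : (ℕ × ℕ) × ℕ) (q : ℕ × ℕ) =>
        g.eval (fin p.1.1 p.1.2) (Nat.pair p.2.unpair.1 (Nat.pair q.1 q.2))) h3 h1 h2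
  | rfind f ihf =>
    have h0 : Partrec fun q : ((ℕ × ℕ) × ℕ) × ℕ => f.eval (fin q.1.1.1 q.1.1.2)
        (Nat.pair q.1.2 q.2) :=
      Partrec.comp (f := fun p : (ℕ × ℕ) × ℕ => f.eval (fin p.1.1 p.1.2) p.2)
        (g := fun q : ((ℕ × ℕ) × ℕ) × ℕ => (q.1.1, Nat.pair q.1.2 q.2)) ihf
        (show Computable fun q : ((ℕ × ℕ) × ℕ) × ℕ => (q.1.1, Nat.pair q.1.2 q.2) by fun_prop)
    have h1 : Partrec₂ fun (p : (ℕ × ℕ) × ℕ) (n : ℕ) =>
        (f.eval (fin p.1.1 p.1.2) (Nat.pair p.2 n)).map fun m => decide (m = 0) :=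
      Partrec.map (f := fun q : ((ℕ × ℕ) × ℕ) × ℕ => f.eval (fin q.1.1.1 q.1.1.2)
        (Nat.pair q.1.2 q.2)) (g := fun (_ : ((ℕ × ℕ) × ℕ) × ℕ) (m : ℕ) => decide (m = 0)) h0
        (cdecide (p := fun r : (((ℕ × ℕ) × ℕ) × ℕ) × ℕ => r.2 = 0)
          (cp_eq (by fun_prop) (by fun_prop)))
    exact Partrec.rfind (p := fun (p : (ℕ × ℕ) × ℕ) (n : ℕ) =>
        (f.eval (fin p.1.1 p.1.2) (Nat.pair p.2 n)).map fun m => decide (m = 0)) h1

end Pool.Agent.V7H66.Blum
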